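import Mathlib
import Pool.Agent.Helper311.GB.Green

set_option autoImplicit false

open MeasureTheory Filter Topology Complex Set

namespace Pool.Agent.U882.GC

open Pool.Agent.Helper311.GB

noncomputable section

variable {E : Type} [NormedAddCommGroup E] [NormedSpace ℂ E]

theorem psh_mono {U V : Set E} {u : E → EReal} (h : PSH V u) (hUV : U ⊆ V) : PSH U u :=
  ⟨h.1.mono hUV, fun z hz => h.2.1 z (hUV hz),
    fun a b hab => h.2.2 a b (fun ζ hζ => hUV (hab ζ hζ))⟩

theorem psh_congr {U : Set E} {u v : E → EReal} (h : PSH U u) (huv : ∀ z ∈ U, v z = u z) :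
    PSH U v := by
  refine ⟨?_, ?_, ?_⟩
  · intro z hz y hy
    rw [huv z hz] at hy
    have := h.1 z hz y hy
    filter_upwards [this, self_mem_nhdsWithin] with x hx hxU
    rw [huv x hxU]
    exact hx
  · intro z hz
    rw [huv z hz]
    exact h.2.1 z hz
  · intro a b hab φ hφ hle
    have ha : a ∈ U := by simpa using hab 0 (by simp)
    rw [huv a ha]
    refine h.2.2 a b hab φ hφ fun ζ hζ => ?_
    rw [← huv _ (hab ζ hζ.le)]
    exact hle ζ hζ

theorem psh_max {U : Set E} {u v : E → EReal} (hu : PSH U u) (hv : PSH U v) :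
    PSH U (fun z => max (u z) (v z)) := by
  refine ⟨hu.1.sup hv.1, fun z hz => max_lt (hu.2.1 z hz) (hv.2.1 z hz), ?_⟩
  intro a b hab φ hφ hle
  exact max_le (hu.2.2 a b hab φ hφ fun ζ hζ => (le_max_left _ _).trans (hle ζ hζ))
    (hv.2.2 a b hab φ hφ fun ζ hζ => (le_max_right _ _).trans (hle ζ hζ))

theorem ereal_add_le (x : EReal) (c y : ℝ) :
    x + (c : EReal) ≤ (y : EReal) ↔ x ≤ ((y - c : ℝ) : EReal) := by
  induction x using EReal.rec with
  | bot => simp
  | coe x => 
    rw [← EReal.coe_add, EReal.coe_le_coe_iff, EReal.coe_le_coe_iff]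
    constructor <;> intro h <;> linarith
  | top =>
    rw [EReal.top_add_coe]
    simp only [top_le_iff, EReal.coe_ne_top]

theorem ereal_mul_le (x : EReal) (c y : ℝ) (hc : 0 < c) :
    (c : EReal) * x ≤ (y : EReal) ↔ x ≤ ((y / c : ℝ) : EReal) := by
  induction x using EReal.rec with
  | bot => simp [EReal.coe_mul_bot_of_pos hc]
  | coe x =>
    rw [← EReal.coe_mul, EReal.coe_le_coe_iff, EReal.coe_le_coe_iff, le_div_iff₀ hc, mul_comm]
  | top => simp [EReal.coe_mul_top_of_pos hc]

theorem psh_add_const {U : Set E} {u : E → EReal} (hu : PSH U u) (c : ℝ) :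
    PSH U (fun z => u z + (c : EReal)) := by
  refine ⟨?_, ?_, ?_⟩
  · have hg : Continuous (fun t : EReal => t + (c : EReal)) := by
      rw [continuous_iff_continuousAt]
      intro t
      have h1 : ContinuousAt (fun p : EReal × EReal => p.1 + p.2) (t, (c : EReal)) :=
        EReal.continuousAt_add (Or.inr (by simp)) (Or.inr (by simp))
      exact ContinuousAt.comp (f := fun t : EReal => (t, (c : EReal))) h1 (by fun_prop)
    exact hg.comp_upperSemicontinuousOn hu.1 (fun a b hab => add_le_add_left hab _)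
  · intro z hz
    exact EReal.add_lt_top (hu.2.1 z hz).ne (by simp)
  · intro a b hab φ hφ hle
    rw [ereal_add_le]
    have h1 := hu.2.2 a b hab (fun ζ => φ ζ - c) (hφ.sub continuous_const)
      (fun ζ hζ => (ereal_add_le _ _ _).1 (hle ζ hζ))
    have h2 : Real.circleAverage (fun ζ => φ ζ - c) 0 1 = Real.circleAverage φ 0 1 - c := by
      have e1 : CircleIntegrable φ 0 1 := hφ.continuousOn.circleIntegrable'
      have e2 : CircleIntegrable (fun _ : ℂ => c) 0 1 :=
        continuous_const.continuousOn.circleIntegrable'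
      have := Real.circleAverage_sub e1 e2
      rw [Real.circleAverage_const] at this
      exact this
    rw [h2] at h1
    exact h1

theorem psh_mul_const {U : Set E} {u : E → EReal} (hu : PSH U u) (c : ℝ) (hc : 0 < c) :
    PSH U (fun z => (c : EReal) * u z) := by
  refine ⟨?_, ?_, ?_⟩
  · have hg : Continuous (fun t : EReal => (c : EReal) * t) := by
      rw [continuous_iff_continuousAt]
      intro t
      have hc' : (c : EReal) ≠ 0 := by exact_mod_cast hc.ne'
      have h1 : ContinuousAt (fun p : EReal × EReal => p.1 * p.2) ((c : EReal), t) :=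
        EReal.continuousAt_mul (Or.inl hc') (Or.inl hc') (Or.inl (by simp)) (Or.inl (by simp))
      exact ContinuousAt.comp (f := fun t : EReal => ((c : EReal), t)) h1 (by fun_prop)
    exact hg.comp_upperSemicontinuousOn hu.1 (fun a b hab => by
      exact mul_le_mul_of_nonneg_left hab (by exact_mod_cast hc.le))
  · intro z hz
    have := hu.2.1 z hz
    show (c : EReal) * u z < ⊤
    generalize u z = t at this ⊢
    induction t using EReal.rec with
    | bot => rw [EReal.coe_mul_bot_of_pos hc]; exact bot_lt_top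
    | coe x => rw [← EReal.coe_mul]; exact EReal.coe_lt_top _
    | top => exact absurd this (lt_irrefl _)
  · intro a b hab φ hφ hle
    rw [ereal_mul_le _ _ _ hc]
    have h1 := hu.2.2 a b hab (fun ζ => φ ζ / c) (hφ.div_const _)
      (fun ζ hζ => (ereal_mul_le _ _ _ hc).1 (hle ζ hζ))
    have h2 : Real.circleAverage (fun ζ => φ ζ / c) 0 1 = Real.circleAverage φ 0 1 / c := by
      have := Real.circleAverage_smul (a := c⁻¹) (f := φ) (c := 0) (R := 1)
      rw [smul_eq_mul] at this
      rw [div_eq_inv_mul, ← this]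
      congr 1
      ext ζ
      simp [div_eq_inv_mul]
    rw [h2] at h1
    exact h1

/-- plurisubharmonicity is a local property -/
theorem psh_local {Ω : Set E} {v : E → EReal}
    (h : ∀ p ∈ Ω, ∃ V : Set E, IsOpen V ∧ p ∈ V ∧ PSH V v) : PSH Ω v := by
  refine ⟨?_, ?_, ?_⟩
  · intro p hp
    obtain ⟨V, hVo, hpV, hV⟩ := h p hp
    intro y hy
    have h1 := hV.1 p hpV y hy
    rw [hVo.nhdsWithin_eq hpV] at h1
    exact h1.filter_mono nhdsWithin_le_nhds
  · intro p hp
    obtain ⟨V, _, hpV, hV⟩ := h p hp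
    exact hV.2.1 p hpV
  · intro a b hab φ hφ hle
    by_contra hcon
    push Not at hcon
    have haΩ : a ∈ Ω := by simpa using hab 0 (by simp)
    have hfin : ∀ p ∈ Ω, v p < ⊤ := by
      intro p hp
      obtain ⟨V, _, hpV, hV⟩ := h p hp
      exact hV.2.1 p hpV
    obtain ⟨va, hva⟩ : ∃ va : ℝ, v a = (va : EReal) :=
      ⟨(v a).toReal, (EReal.coe_toReal (hfin a haΩ).ne (ne_bot_of_gt hcon)).symm⟩
    rw [hva] at hcon
    have hcon' : Real.circleAverage φ 0 1 < va := by exact_mod_cast hcon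
    set D : ℝ := va - Real.circleAverage φ 0 1 with hD
    have hD0 : 0 < D := by rw [hD]; linarith
    obtain ⟨p, hp1, hp0⟩ := trig_maj φ hφ.continuousOn (D / 2) (by linarith)
    have hline : Continuous (fun ζ : ℂ => a + ζ • b) := by fun_prop
    have hmemΩ : ∀ ζ ∈ Metric.closedBall (0:ℂ) 1, a + ζ • b ∈ Ω := fun ζ hζ =>
      hab ζ (by simpa using hζ)
    have husc : UpperSemicontinuousOn (fun ζ : ℂ => v (a + ζ • b)) (Metric.closedBall (0:ℂ) 1) := by
      intro ζ hζ y hy
      obtain ⟨V, hVo, hpV, hV⟩ := h _ (hmemΩ ζ hζ)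
      have h1 := hV.1 _ hpV y hy
      rw [hVo.nhdsWithin_eq hpV] at h1
      exact (hline.continuousAt.eventually h1).filter_mono nhdsWithin_le_nhds
    set G : ℂ → ℝ := fun ζ => -(p.eval ζ).re + D / 4 * ‖ζ‖ ^ 2 with hG
    have hGc : Continuous G := by
      have := Complex.continuous_re.comp p.continuous
      simp only [hG]
      exact (this.neg).add (continuous_const.mul (continuous_norm.pow 2))
    have hgusc : UpperSemicontinuousOn (fun ζ : ℂ => v (a + ζ • b) + ((G ζ : ℝ) : EReal))
        (Metric.closedBall (0:ℂ) 1) := by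
      refine UpperSemicontinuousOn.add' husc ?_ ?_
      · have : ContinuousOn (fun z => ((G z : ℝ) : EReal)) (Metric.closedBall (0:ℂ) 1) :=
          (continuous_coe_real_ereal.comp hGc).continuousOn
        exact this.upperSemicontinuousOn
      · intro z hz
        exact EReal.continuousAt_add (Or.inr (by simp)) (Or.inr (by simp))
    obtain ⟨z, hz, hmax⟩ := hgusc.exists_isMaxOn ⟨0, Metric.mem_closedBall_self zero_le_one⟩
      (isCompact_closedBall (0:ℂ) 1)
    have hmax' : ∀ ζ : ℂ, ‖ζ‖ ≤ 1 → v (a + ζ • b) + ((G ζ : ℝ) : EReal) ≤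
        v (a + z • b) + ((G z : ℝ) : EReal) := fun ζ hζ => hmax (by simpa using hζ)
    have h0 := hmax' 0 (by simp)
    rw [zero_smul, add_zero, hva] at h0
    obtain ⟨vz, hvz⟩ : ∃ vz : ℝ, v (a + z • b) = (vz : EReal) := by
      refine ⟨(v (a + z • b)).toReal, (EReal.coe_toReal (hfin _ (hmemΩ z hz)).ne ?_).symm⟩
      intro hb
      rw [hb, EReal.bot_add, ← EReal.coe_add] at h0
      exact EReal.coe_ne_bot _ (le_bot_iff.1 h0)
    rw [hvz] at h0
    have h0' : va + G 0 ≤ vz + G z := by exact_mod_cast h0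
    have hG0 : G 0 = -(p.eval 0).re := by simp [hG]
    have hbig : D / 2 ≤ vz + G z := by
      rw [hG0] at h0'
      rw [hD] at hp0 ⊢
      linarith
    have hz1 : ‖z‖ ≤ 1 := by simpa using hz
    have hzlt : ‖z‖ < 1 := by
      refine lt_of_le_of_ne hz1 fun hz' => ?_
      have h1 := hle z hz'
      rw [hvz] at h1
      have h1' : vz ≤ φ z := by exact_mod_cast h1
      have h2 := hp1 z hz'
      have h3 : G z = -(p.eval z).re + D / 4 := by simp [hG, hz']
      linarith
    obtain ⟨V, hVo, hpV, hV⟩ := h _ (hmemΩ z hz)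
    have hnear : ∀ᶠ w in 𝓝 z, a + w • b ∈ V := hline.continuousAt.eventually (hVo.mem_nhds hpV)
    obtain ⟨r, hr0, hr⟩ := Metric.eventually_nhds_iff.1 hnear
    set ρ : ℝ := min (r / 2) (1 - ‖z‖) with hρ
    have hρ0 : 0 < ρ := lt_min (by positivity) (by linarith)
    have hρr : ρ < r := lt_of_le_of_lt (min_le_left _ _) (by linarith)
    have hρ1 : ‖z‖ + ρ ≤ 1 := by
      have := min_le_right (r / 2) (1 - ‖z‖)
      linarith
    have hpt : ∀ ζ : ℂ, a + z • b + ζ • ((ρ : ℂ) • b) = a + (z + (ρ : ℂ) * ζ) • b := by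
      intro ζ
      rw [smul_smul, add_smul, add_assoc, mul_comm]
    have hnρ : ∀ ζ : ℂ, ‖ζ‖ ≤ 1 → ‖(ρ : ℂ) * ζ‖ ≤ ρ := by
      intro ζ hζ
      rw [norm_mul, Complex.norm_real, Real.norm_of_nonneg hρ0.le]
      nlinarith
    set H : ℂ → ℂ := fun ζ => p.eval (z + (ρ : ℂ) * ζ) -
      (D / 4 : ℝ) * (2 * (starRingEnd ℂ z) * ((ρ : ℂ) * ζ)) with hH
    have hHd : Differentiable ℂ H := by
      simp only [hH]
      have h1 : Differentiable ℂ (fun ζ : ℂ => z + (ρ : ℂ) * ζ) := by fun_prop
      have h2 := p.differentiable.comp h1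
      refine Differentiable.sub h2 (by fun_prop)
    set C : ℝ := vz + G z - D / 4 * (‖z‖ ^ 2 + ρ ^ 2) with hC
    have hsub := hV.2.2 (a + z • b) ((ρ : ℂ) • b) (by
      intro ζ hζ
      rw [hpt]
      apply hr
      rw [dist_eq_norm, add_sub_cancel_left]
      exact lt_of_le_of_lt (hnρ ζ hζ) hρr) (fun ζ => (H ζ).re + C)
      ((Complex.continuous_re.comp hHd.continuous).add continuous_const) (by
      intro ζ hζ
      rw [hpt]
      have hw1 : ‖z + (ρ : ℂ) * ζ‖ ≤ 1 := by
        have := norm_add_le z ((ρ : ℂ) * ζ)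
        have := hnρ ζ hζ.le
        linarith
      have h1 := hmax' _ hw1
      rw [hvz, ← EReal.coe_add, ereal_add_le] at h1
      refine h1.trans ?_
      rw [EReal.coe_le_coe_iff]
      have hn : ‖z + (ρ : ℂ) * ζ‖ ^ 2 = ‖z‖ ^ 2 + ρ ^ 2 +
          2 * ((starRingEnd ℂ z) * ((ρ : ℂ) * ζ)).re := by
        have e1 : ‖ζ‖ ^ 2 = 1 := by rw [hζ]; norm_num
        rw [← Complex.normSq_eq_norm_sq, Complex.normSq_apply] at e1
        rw [← Complex.normSq_eq_norm_sq, ← Complex.normSq_eq_norm_sq, Complex.normSq_apply,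
          Complex.normSq_apply]
        simp only [Complex.add_re, Complex.add_im, Complex.mul_re, Complex.mul_im,
          Complex.ofReal_re, Complex.ofReal_im, Complex.conj_re, Complex.conj_im]
        linear_combination ρ ^ 2 * e1
      have hHre : (H ζ).re = (p.eval (z + (ρ : ℂ) * ζ)).re -
          D / 4 * (2 * ((starRingEnd ℂ z) * ((ρ : ℂ) * ζ)).re) := by
        simp only [hH]
        rw [Complex.sub_re, Complex.re_ofReal_mul, mul_assoc 2,
          show (2 : ℂ) = ((2 : ℝ) : ℂ) by norm_num, Complex.re_ofReal_mul]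
      have hGw : G (z + (ρ : ℂ) * ζ) = -(p.eval (z + (ρ : ℂ) * ζ)).re +
        D / 4 * ‖z + (ρ : ℂ) * ζ‖ ^ 2 := rfl
      rw [hGw, hn, hHre, hC]
      apply le_of_eq
      ring)
    rw [J8714.avg_re H hHd C, hvz] at hsub
    have hsub' : vz ≤ (H 0).re + C := by exact_mod_cast hsub
    have hH0 : (H 0).re = (p.eval z).re := by simp [hH]
    have hGz : G z = -(p.eval z).re + D / 4 * ‖z‖ ^ 2 := rfl
    rw [hH0, hC, hGz] at hsub'
    have : 0 < D / 4 * ρ ^ 2 := by positivity
    linarith

end

end Pool.Agent.U882.GC
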