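import Mathlib
import Pool.Agent.U882.GC.Psh

set_option autoImplicit false

open MeasureTheory Filter Topology Complex Set

namespace Pool.Agent.U882.GC

open Pool.Agent.Helper311.GB

noncomputable section

variable {E : Type} [NormedAddCommGroup E] [InnerProductSpace ℂ E]

/-- `∑ⱼ log ‖z - aⱼ‖` -/
def LN {N : ℕ} (a : Fin N → E) (z : E) : EReal :=
  ENNReal.log (ENNReal.ofReal (∏ j, ‖z - a j‖))

theorem LN_of_pos {N : ℕ} (a : Fin N → E) (z : E) (h : 0 < ∏ j, ‖z - a j‖) :
    LN a z = ((Real.log (∏ j, ‖z - a j‖) : ℝ) : EReal) := ENNReal.log_ofReal_of_pos h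

theorem LN_of_eq {N : ℕ} (a : Fin N → E) (z : E) (h : ∏ j, ‖z - a j‖ = 0) : LN a z = ⊥ := by
  rw [LN, h]
  simp

theorem LN_le {N : ℕ} (a : Fin N → E) (z : E) (c : ℝ) :
    LN a z ≤ (c : EReal) ↔ ∏ j, ‖z - a j‖ ≤ Real.exp c := by
  have h0 : 0 ≤ ∏ j, ‖z - a j‖ := Finset.prod_nonneg fun _ _ => norm_nonneg _
  rcases h0.eq_or_lt with h | h
  · rw [LN_of_eq a z h.symm, ← h]
    simp [(Real.exp_pos c).le]
  · rw [LN_of_pos a z h, EReal.coe_le_coe_iff, Real.log_le_iff_le_exp h]

theorem psh_LN {N : ℕ} (a : Fin N → E) (Ω : Set E) : PSH Ω (LN a) := by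
  refine ⟨?_, ?_, ?_⟩
  · have h1 : Continuous (LN a) := by
      unfold LN
      refine ENNReal.continuous_log.comp (ENNReal.continuous_ofReal.comp ?_)
      fun_prop
    exact h1.continuousOn.upperSemicontinuousOn
  · intro z _
    have h0 : 0 ≤ ∏ j, ‖z - a j‖ := Finset.prod_nonneg fun _ _ => norm_nonneg _
    rcases h0.eq_or_lt with h | h
    · rw [LN_of_eq a z h.symm]
      exact bot_lt_top
    · rw [LN_of_pos a z h]
      exact EReal.coe_lt_top _
  · intro x b _ φ hφ hle
    by_contra hcon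
    push Not at hcon
    have h0 : 0 ≤ ∏ j, ‖x - a j‖ := Finset.prod_nonneg fun _ _ => norm_nonneg _
    rcases h0.eq_or_lt with h | h
    · rw [LN_of_eq a x h.symm] at hcon
      exact not_lt_bot hcon
    have hne : ∀ j, 0 < ‖x - a j‖ := by
      intro j
      refine lt_of_le_of_ne (norm_nonneg _) fun h' => ?_
      exact h.ne' (Finset.prod_eq_zero (Finset.mem_univ j) h'.symm)
    rw [LN_of_pos a x h] at hcon
    have hcon' : Real.circleAverage φ 0 1 < Real.log (∏ j, ‖x - a j‖) := by exact_mod_cast hcon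
    set ε : ℝ := (Real.log (∏ j, ‖x - a j‖) - Real.circleAverage φ 0 1) / 2 with hε
    have hε0 : 0 < ε := by rw [hε]; linarith
    obtain ⟨p, hp1, hp0⟩ := trig_maj φ hφ.continuousOn ε hε0
    set f : ℂ → ℂ := fun ζ => ∏ j, (inner ℂ (x - a j) (x + ζ • b - a j) / (‖x - a j‖ : ℂ)) with hf
    have hfd : Differentiable ℂ f := by
      simp only [hf]
      apply Differentiable.fun_finsetProd
      intro j _
      refine Differentiable.div_const ?_ _
      exact (innerSL ℂ (x - a j)).differentiable.comp (by fun_prop)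
    have hf0 : ‖f 0‖ = ∏ j, ‖x - a j‖ := by
      simp only [hf]
      rw [norm_prod]
      refine Finset.prod_congr rfl fun j _ => ?_
      rw [zero_smul, add_zero, inner_self_eq_norm_sq_to_K, norm_div, norm_pow]
      simp only [coe_algebraMap, Complex.norm_real, norm_norm]
      rw [pow_two, mul_div_assoc, div_self (hne j).ne', mul_one]
    have hfle : ∀ ζ : ℂ, ‖f ζ‖ ≤ ∏ j, ‖x + ζ • b - a j‖ := by
      intro ζ
      simp only [hf]
      rw [norm_prod]
      refine Finset.prod_le_prod (fun _ _ => norm_nonneg _) fun j _ => ?_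
      rw [norm_div, Complex.norm_real, norm_norm, div_le_iff₀ (hne j), mul_comm]
      exact norm_inner_le_norm _ _
    set g : ℂ → ℂ := fun ζ => f ζ * Complex.exp (-(p.eval ζ)) with hg
    have hgd : Differentiable ℂ g := by
      simp only [hg]
      exact hfd.mul (p.differentiable.neg.cexp)
    have hmm : ‖g 0‖ ≤ 1 := by
      refine Complex.norm_le_of_forall_mem_frontier_norm_le (U := Metric.ball (0:ℂ) 1)
        Metric.isBounded_ball hgd.diffContOnCl ?_ (subset_closure (Metric.mem_ball_self one_pos))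
      intro ζ hζ
      have hζ1 : ‖ζ‖ = 1 := by
        rw [frontier_ball (0:ℂ) one_ne_zero] at hζ
        simpa using hζ
      have h1 := (LN_le a _ _).1 (hle ζ hζ1)
      have h2 := hp1 ζ hζ1
      simp only [hg]
      rw [norm_mul, Complex.norm_exp, Complex.neg_re, Real.exp_neg, ← div_eq_mul_inv,
        div_le_one (Real.exp_pos _)]
      exact (hfle ζ).trans (h1.trans (Real.exp_le_exp.2 h2))
    simp only [hg] at hmm
    rw [norm_mul, Complex.norm_exp, Complex.neg_re, Real.exp_neg, ← div_eq_mul_inv,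
      div_le_one (Real.exp_pos _), hf0, ← Real.log_le_iff_le_exp h] at hmm
    linarith

end

end Pool.Agent.U882.GC
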