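import Mathlib
import Pool.Agent.U882.GC.Log

set_option autoImplicit false

open MeasureTheory Filter Topology Complex Set

namespace Pool.Agent.U882.GC

open Pool.Agent.Helper311.GB

noncomputable section

/-- the functions competing in the definition of the pluricomplex Green function of `Ω` with
poles at `S`: negative, plurisubharmonic on `Ω`, with `u w ≤ log ‖w - a‖ + O(1)` as `w → a`
for every `a ∈ S` -/
def Comp {n : ℕ} (Ω S : Set (EuclideanSpace ℂ (Fin n))) (u : EuclideanSpace ℂ (Fin n) → EReal) :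
    Prop :=
  PSH Ω u ∧ (∀ z ∈ Ω, u z < 0) ∧
    ∀ a ∈ S, ∃ C : ℝ, ∀ᶠ w in 𝓝[≠] a, u w ≤ ((Real.log ‖w - a‖ + C : ℝ) : EReal)

/-- the pluricomplex Green function of `Ω` with poles at `S`, at the point `z` -/
def greenS {n : ℕ} (Ω S : Set (EuclideanSpace ℂ (Fin n))) (z : EuclideanSpace ℂ (Fin n)) : EReal :=
  sSup {t : EReal | ∃ u : EuclideanSpace ℂ (Fin n) → EReal, Comp Ω S u ∧ t = u z}

theorem le_greenS {n : ℕ} {Ω S : Set (EuclideanSpace ℂ (Fin n))}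
    {u : EuclideanSpace ℂ (Fin n) → EReal} (hu : Comp Ω S u) (z : EuclideanSpace ℂ (Fin n)) :
    u z ≤ greenS Ω S z := le_sSup ⟨u, hu, rfl⟩

theorem greenS_le {n : ℕ} {Ω S : Set (EuclideanSpace ℂ (Fin n))} {z : EuclideanSpace ℂ (Fin n)}
    (c : EReal) (h : ∀ u, Comp Ω S u → u z ≤ c) : greenS Ω S z ≤ c := by
  apply sSup_le
  rintro t ⟨u, hu, rfl⟩
  exact h u hu

theorem comp_max {n : ℕ} {Ω S : Set (EuclideanSpace ℂ (Fin n))}
    {u v : EuclideanSpace ℂ (Fin n) → EReal} (hu : Comp Ω S u) (hv : Comp Ω S v) :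
    Comp Ω S (fun z => max (u z) (v z)) := by
  refine ⟨psh_max hu.1 hv.1, fun z hz => max_lt (hu.2.1 z hz) (hv.2.1 z hz), fun a ha => ?_⟩
  obtain ⟨C, hC⟩ := hu.2.2 a ha
  obtain ⟨C', hC'⟩ := hv.2.2 a ha
  refine ⟨max C C', ?_⟩
  filter_upwards [hC, hC'] with w h1 h2
  refine max_le (h1.trans ?_) (h2.trans ?_) <;> rw [EReal.coe_le_coe_iff]
  · linarith [le_max_left C C']
  · linarith [le_max_right C C']

theorem ereal_le_add_of (x y : EReal) (δ : ℝ) (h : x + ((-δ : ℝ) : EReal) ≤ y) :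
    x ≤ y + (δ : EReal) := by
  have h1 : x + ((-δ : ℝ) : EReal) + (δ : EReal) ≤ y + (δ : EReal) := add_le_add_left h _
  rwa [add_assoc, ← EReal.coe_add, neg_add_cancel, EReal.coe_zero, add_zero] at h1

/-- the basic competitor with logarithmic poles -/
theorem comp_LN {n N : ℕ} {Ω : Set (EuclideanSpace ℂ (Fin n))} (hΩ : IsOpen Ω)
    (a : Fin N → EuclideanSpace ℂ (Fin n)) (ha : ∀ j, a j ∈ Ω) (R : ℝ) (hR1 : 1 ≤ R)
    (hR : ∀ z ∈ Ω, ∀ j, ‖z - a j‖ ≤ R) :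
    Comp Ω (Set.range a) (fun z => LN a z + ((-(N * Real.log R) - 1 : ℝ) : EReal)) := by
  have hR0 : 0 < R := by linarith
  refine ⟨psh_add_const (psh_LN a Ω) _, fun z hz => ?_, ?_⟩
  · have h1 : LN a z ≤ ((N * Real.log R : ℝ) : EReal) := by
      rw [LN_le]
      have h2 : Real.exp (N * Real.log R) = R ^ N := by
        rw [mul_comm, Real.exp_mul, Real.exp_log hR0, Real.rpow_natCast]
      rw [h2]
      calc ∏ j, ‖z - a j‖ ≤ ∏ _j : Fin N, R :=
            Finset.prod_le_prod (fun _ _ => norm_nonneg _) fun j _ => hR z hz j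
        _ = R ^ N := by simp
    have h2 : LN a z + ((-(N * Real.log R) - 1 : ℝ) : EReal) ≤ ((-1 : ℝ) : EReal) := by
      rw [ereal_add_le]
      refine h1.trans (le_of_eq ?_)
      congr 1
      ring
    refine lt_of_le_of_lt h2 ?_
    have : ((-1 : ℝ) : EReal) < ((0 : ℝ) : EReal) := by
      rw [EReal.coe_lt_coe_iff]; norm_num
    simpa using this
  · rintro _ ⟨j, rfl⟩
    refine ⟨Real.log (R ^ N) + (-(N * Real.log R) - 1), ?_⟩
    have h1 : ∀ᶠ w in 𝓝[≠] (a j), w ∈ Ω :=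
      nhdsWithin_le_nhds (hΩ.mem_nhds (ha j))
    filter_upwards [h1, self_mem_nhdsWithin] with w hw hne
    have hpos : 0 < ‖w - a j‖ := norm_pos_iff.2 (sub_ne_zero.2 hne)
    rw [ereal_add_le, LN_le]
    have h2 : Real.exp (Real.log ‖w - a j‖ + (Real.log (R ^ N) + (-(N * Real.log R) - 1)) -
        (-(N * Real.log R) - 1)) = ‖w - a j‖ * R ^ N := by
      rw [show Real.log ‖w - a j‖ + (Real.log (R ^ N) + (-(N * Real.log R) - 1)) -
        (-(N * Real.log R) - 1) = Real.log ‖w - a j‖ + Real.log (R ^ N) by ring, Real.exp_add,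
        Real.exp_log hpos, Real.exp_log (by positivity)]
    rw [h2, ← Finset.mul_prod_erase Finset.univ (fun i => ‖w - a i‖) (Finset.mem_univ j)]
    refine mul_le_mul_of_nonneg_left ?_ hpos.le
    calc ∏ i ∈ Finset.univ.erase j, ‖w - a i‖ ≤ ∏ _i ∈ Finset.univ.erase j, R :=
          Finset.prod_le_prod (fun _ _ => norm_nonneg _) fun i _ => hR w hw i
      _ = R ^ (Finset.univ.erase j).card := by simp
      _ ≤ R ^ N := by
          apply pow_le_pow_right₀ hR1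
          have := Finset.card_le_univ (Finset.univ.erase j)
          simpa using this

theorem LN_lower {n N : ℕ} (a : Fin N → EuclideanSpace ℂ (Fin n)) (z : EuclideanSpace ℂ (Fin n))
    (t : ℝ) (ht : 0 < t) (h : ∀ j, t ≤ ‖z - a j‖) :
    ((N * Real.log t : ℝ) : EReal) ≤ LN a z := by
  have h1 : t ^ N ≤ ∏ j, ‖z - a j‖ := by
    calc t ^ N = ∏ _j : Fin N, t := by simp
      _ ≤ ∏ j, ‖z - a j‖ := Finset.prod_le_prod (fun _ _ => ht.le) fun j _ => h j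
  have h2 : 0 < ∏ j, ‖z - a j‖ := lt_of_lt_of_le (by positivity) h1
  rw [LN_of_pos a z h2, EReal.coe_le_coe_iff, ← Real.log_pow]
  exact Real.log_le_log (by positivity) h1

/-- the polynomial equal to `1` at `z0` and vanishing at the points `a j` -/
def PP {n N : ℕ} (a : Fin N → EuclideanSpace ℂ (Fin n)) (z0 z : EuclideanSpace ℂ (Fin n)) : ℂ :=
  ∏ j, (inner ℂ z0 (z - a j) / inner ℂ z0 (z0 - a j))

theorem PP_den {n : ℕ} (a z0 : EuclideanSpace ℂ (Fin n)) (r0 : ℝ) (hr0 : 0 < r0)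
    (hz0 : r0 ≤ ‖z0‖) (ha : ‖a‖ ≤ r0 / 2) : ‖z0‖ * (r0 / 2) ≤ ‖(inner ℂ z0 (z0 - a) : ℂ)‖ := by
  have h1 : (inner ℂ z0 (z0 - a) : ℂ) = (‖z0‖ : ℂ) ^ 2 - inner ℂ z0 a := by
    rw [inner_sub_right, inner_self_eq_norm_sq_to_K]
    rfl
  have h2 := norm_inner_le_norm (𝕜 := ℂ) z0 a
  have h3 : ‖(‖z0‖ : ℂ) ^ 2‖ = ‖z0‖ ^ 2 := by simp
  have h4 := norm_sub_norm_le ((‖z0‖ : ℂ) ^ 2) (inner ℂ z0 a)
  rw [h3] at h4
  rw [h1]
  have h5 : ‖z0‖ * ‖a‖ ≤ ‖z0‖ * (r0 / 2) := mul_le_mul_of_nonneg_left ha (norm_nonneg _)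
  have h6 : ‖z0‖ * r0 ≤ ‖z0‖ ^ 2 := by
    rw [pow_two]
    exact mul_le_mul_of_nonneg_left hz0 (norm_nonneg _)
  linarith

theorem PP_factor {n : ℕ} (a z0 z : EuclideanSpace ℂ (Fin n)) (r0 : ℝ) (hr0 : 0 < r0)
    (hz0 : r0 ≤ ‖z0‖) (ha : ‖a‖ ≤ r0 / 2) :
    ‖(inner ℂ z0 (z - a) / inner ℂ z0 (z0 - a) : ℂ)‖ ≤ ‖z - a‖ * (2 / r0) := by
  have h1 := PP_den a z0 r0 hr0 hz0 ha
  have h2 := norm_inner_le_norm (𝕜 := ℂ) z0 (z - a)
  have hz0' : 0 < ‖z0‖ := by linarith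
  have h3 : 0 < ‖(inner ℂ z0 (z0 - a) : ℂ)‖ := lt_of_lt_of_le (by positivity) h1
  rw [norm_div, div_le_iff₀ h3]
  calc ‖(inner ℂ z0 (z - a) : ℂ)‖ ≤ ‖z0‖ * ‖z - a‖ := h2
    _ = ‖z - a‖ * (2 / r0) * (‖z0‖ * (r0 / 2)) := by field_simp
    _ ≤ ‖z - a‖ * (2 / r0) * ‖(inner ℂ z0 (z0 - a) : ℂ)‖ := by
        refine mul_le_mul_of_nonneg_left h1 (by positivity)

theorem PP_self {n N : ℕ} (a : Fin N → EuclideanSpace ℂ (Fin n)) (z0 : EuclideanSpace ℂ (Fin n))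
    (r0 : ℝ) (hr0 : 0 < r0) (hz0 : r0 ≤ ‖z0‖) (ha : ∀ j, ‖a j‖ ≤ r0 / 2) : PP a z0 z0 = 1 := by
  apply Finset.prod_eq_one
  intro j _
  apply div_self
  have h1 := PP_den (a j) z0 r0 hr0 hz0 (ha j)
  have hz0' : 0 < ‖z0‖ := by linarith
  exact norm_pos_iff.1 (lt_of_lt_of_le (by positivity) h1)

theorem PP_bound {n N : ℕ} (a : Fin N → EuclideanSpace ℂ (Fin n))
    (z0 z : EuclideanSpace ℂ (Fin n)) (r0 R : ℝ) (hr0 : 0 < r0) (hz0 : r0 ≤ ‖z0‖)
    (ha : ∀ j, ‖a j‖ ≤ r0 / 2) (hz : ∀ j, ‖z - a j‖ ≤ R) : ‖PP a z0 z‖ ≤ (R * (2 / r0)) ^ N := by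
  unfold PP
  rw [norm_prod]
  calc _ ≤ ∏ _j : Fin N, (R * (2 / r0)) :=
        Finset.prod_le_prod (fun _ _ => norm_nonneg _) fun j _ =>
          (PP_factor (a j) z0 z r0 hr0 hz0 (ha j)).trans
            (mul_le_mul_of_nonneg_right (hz j) (by positivity))
    _ = (R * (2 / r0)) ^ N := by simp

theorem PP_lip {n N : ℕ} (a : Fin N → EuclideanSpace ℂ (Fin n))
    (z0 z : EuclideanSpace ℂ (Fin n)) (r0 R : ℝ) (hr0 : 0 < r0) (hz0 : r0 ≤ ‖z0‖)
    (ha : ∀ j, ‖a j‖ ≤ r0 / 2) (hz : ∀ j, ‖z - a j‖ ≤ R) (hR : 1 ≤ R * (2 / r0)) (j : Fin N) :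
    ‖PP a z0 z‖ ≤ ‖z - a j‖ * ((2 / r0) * (R * (2 / r0)) ^ N) := by
  unfold PP
  rw [norm_prod, ← Finset.mul_prod_erase Finset.univ _ (Finset.mem_univ j), ← mul_assoc]
  refine mul_le_mul (PP_factor (a j) z0 z r0 hr0 hz0 (ha j)) ?_
    (Finset.prod_nonneg fun _ _ => norm_nonneg _) (by positivity)
  calc _ ≤ ∏ _i ∈ Finset.univ.erase j, (R * (2 / r0)) :=
        Finset.prod_le_prod (fun _ _ => norm_nonneg _) fun i _ =>
          (PP_factor (a i) z0 z r0 hr0 hz0 (ha i)).trans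
            (mul_le_mul_of_nonneg_right (hz i) (by positivity))
    _ = (R * (2 / r0)) ^ (Finset.univ.erase j).card := by simp
    _ ≤ (R * (2 / r0)) ^ N := by
        apply pow_le_pow_right₀ hR
        have := Finset.card_le_univ (Finset.univ.erase j)
        simpa using this

open Classical in
/-- transport of a competitor by a holomorphic map close to the identity fixing the poles -/
theorem comp_shift {n : ℕ} {Ω : Set (EuclideanSpace ℂ (Fin n))} (hΩ : IsOpen Ω)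
    (ψ : EuclideanSpace ℂ (Fin n) → EReal) (hψ : PSH Ω ψ) (hψneg : ∀ z ∈ Ω, ψ z < 0)
    (ρ1 δ M : ℝ) (hρ1 : 0 < ρ1) (hM : 0 < M) (hδ : 0 < δ)
    (L D : Set (EuclideanSpace ℂ (Fin n))) (hLc : IsClosed L) (hD : IsOpen D) (hLD : L ⊆ D)
    (hDΩ : D ⊆ Ω) (hball : Metric.closedBall 0 ρ1 ⊆ L)
    (hL : ∀ z ∈ Ω, z ∉ L → ((-δ : ℝ) : EReal) ≤ (M : EReal) * ψ z)
    (Φ : EuclideanSpace ℂ (Fin n) → EuclideanSpace ℂ (Fin n)) (hΦc : Continuous Φ)
    (hΦ : ∀ x b, Differentiable ℂ (fun ζ : ℂ => Φ (x + ζ • b))) (hΦD : ∀ z ∈ D, Φ z ∈ Ω)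
    (S : Set (EuclideanSpace ℂ (Fin n))) (hS : ∀ a ∈ S, ‖a‖ < ρ1)
    (hΦS : ∀ a ∈ S, ∀ z ∈ D, ‖z - a‖ / 2 ≤ ‖Φ z - a‖ ∧ ‖Φ z - a‖ ≤ 2 * ‖z - a‖)
    (u : EuclideanSpace ℂ (Fin n) → EReal) (hu : Comp Ω S u)
    (hann : ∀ z, ρ1 / 2 < ‖z‖ → ‖z‖ < ρ1 → (M : EReal) * ψ z ≤ u (Φ z) + ((-δ : ℝ) : EReal)) :
    ∃ v, Comp Ω S v ∧ (∀ z ∈ D, u (Φ z) + ((-δ : ℝ) : EReal) ≤ v z) ∧
      ∀ z ∈ Ω, ρ1 ≤ ‖z‖ → (M : EReal) * ψ z ≤ v z := by
  have hbD : ∀ z, ‖z‖ ≤ ρ1 → z ∈ D := fun z hz => hLD (hball (by simpa using hz))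
  -- the transported function
  have hT0 : PSH D (fun z => u (Φ z)) := by
    refine ⟨?_, fun z hz => hu.1.2.1 _ (hΦD z hz), ?_⟩
    · intro z hz y hy
      have h1 := hu.1.1 (Φ z) (hΦD z hz) y hy
      have h2 : Tendsto Φ (𝓝[D] z) (𝓝[Ω] (Φ z)) := by
        apply tendsto_nhdsWithin_of_tendsto_nhds_of_eventually_within
        · exact (hΦc.tendsto z).mono_left nhdsWithin_le_nhds
        · filter_upwards [self_mem_nhdsWithin] with x hx
          exact hΦD x hx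
      exact h2.eventually h1
    · intro x b hxb φ hφ hle
      have := psh_comp n Ω hΩ u hu.1 (fun ζ => Φ (x + ζ • b)) (hΦ x b)
        (fun ζ hζ => hΦD _ (hxb ζ hζ)) φ hφ hle
      simpa using this
  have hT : PSH D (fun z => u (Φ z) + ((-δ : ℝ) : EReal)) := psh_add_const hT0 _
  have hMψ : PSH Ω (fun z => (M : EReal) * ψ z) := psh_mul_const hψ M hM
  have hTle : ∀ z ∈ D, u (Φ z) + ((-δ : ℝ) : EReal) ≤ ((-δ : ℝ) : EReal) := by
    intro z hz
    rw [ereal_add_le, sub_self]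
    have := (hu.2.1 _ (hΦD z hz)).le
    simpa using this
  set v : EuclideanSpace ℂ (Fin n) → EReal := fun z =>
    if ‖z‖ < ρ1 then u (Φ z) + ((-δ : ℝ) : EReal) else
      if z ∈ D then max (u (Φ z) + ((-δ : ℝ) : EReal)) ((M : EReal) * ψ z) else
        (M : EReal) * ψ z with hv
  have hv1 : ∀ z, ‖z‖ < ρ1 → v z = u (Φ z) + ((-δ : ℝ) : EReal) := fun z hz => by
    simp only [hv]; rw [if_pos hz]
  have hv2 : ∀ z ∈ D, ρ1 / 2 < ‖z‖ →
      v z = max (u (Φ z) + ((-δ : ℝ) : EReal)) ((M : EReal) * ψ z) := by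
    intro z hz hz2
    by_cases h : ‖z‖ < ρ1
    · rw [hv1 z h, max_eq_left (hann z hz2 h)]
    · simp only [hv]
      rw [if_neg h, if_pos hz]
  have hv3 : ∀ z ∈ Ω, z ∉ L → v z = (M : EReal) * ψ z := by
    intro z hz hzL
    have h : ¬ ‖z‖ < ρ1 := fun h => hzL (hball (by simpa using h.le))
    simp only [hv]
    rw [if_neg h]
    split_ifs with h2
    · exact max_eq_right ((hTle z h2).trans (hL z hz hzL))
    · rfl
  have hneg : ∀ z ∈ Ω, (M : EReal) * ψ z < 0 := by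
    intro z hz
    have := hψneg z hz
    exact EReal.mul_neg_iff.2 (Or.inl ⟨by exact_mod_cast hM, this⟩)
  have hδneg : ((-δ : ℝ) : EReal) < 0 := by
    have : ((-δ : ℝ) : EReal) < ((0 : ℝ) : EReal) := by
      rw [EReal.coe_lt_coe_iff]; linarith
    simpa using this
  refine ⟨v, ⟨?_, ?_, ?_⟩, ?_, ?_⟩
  · apply psh_local
    intro p hp
    by_cases h1 : ‖p‖ < ρ1
    · refine ⟨Metric.ball 0 ρ1, Metric.isOpen_ball, by simpa using h1, ?_⟩
      refine psh_congr (psh_mono hT ?_) ?_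
      · intro z hz
        exact hbD z (by simpa using (le_of_lt (mem_ball_zero_iff.1 hz)))
      · intro z hz
        exact hv1 z (by simpa using hz)
    · by_cases h2 : p ∈ D
      · refine ⟨D ∩ {z | ρ1 / 2 < ‖z‖}, hD.inter (isOpen_lt continuous_const continuous_norm),
          ⟨h2, ?_⟩, ?_⟩
        · show ρ1 / 2 < ‖p‖
          linarith
        · refine psh_congr (psh_max (psh_mono hT inter_subset_left)
            (psh_mono hMψ (inter_subset_left.trans hDΩ))) ?_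
          intro z hz
          exact hv2 z hz.1 hz.2
      · refine ⟨Ω ∩ Lᶜ, hΩ.inter hLc.isOpen_compl, ⟨hp, fun h => h2 (hLD h)⟩, ?_⟩
        refine psh_congr (psh_mono hMψ inter_subset_left) ?_
        intro z hz
        exact hv3 z hz.1 hz.2
  · intro z hz
    by_cases h1 : ‖z‖ < ρ1
    · rw [hv1 z h1]
      exact lt_of_le_of_lt (hTle z (hbD z h1.le)) hδneg
    · by_cases h2 : z ∈ D
      · rw [hv2 z h2 (by linarith)]
        exact max_lt (lt_of_le_of_lt (hTle z h2) hδneg) (hneg z hz)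
      · rw [hv3 z hz (fun h => h2 (hLD h))]
        exact hneg z hz
  · intro a ha
    obtain ⟨C, hC⟩ := hu.2.2 a ha
    have haD : a ∈ D := hbD a (hS a ha).le
    have hΦa : Φ a = a := by
      have := (hΦS a ha a haD).2
      rw [sub_self, norm_zero, mul_zero] at this
      exact sub_eq_zero.1 (norm_eq_zero.1 (le_antisymm this (norm_nonneg _)))
    have h1 : ∀ᶠ w in 𝓝[≠] a, w ∈ Metric.ball (0 : EuclideanSpace ℂ (Fin n)) ρ1 :=
      nhdsWithin_le_nhds (Metric.isOpen_ball.mem_nhds (by simpa using hS a ha))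
    have h2 : Tendsto Φ (𝓝[≠] a) (𝓝[≠] a) := by
      apply tendsto_nhdsWithin_of_tendsto_nhds_of_eventually_within
      · have := (hΦc.tendsto a)
        rw [hΦa] at this
        exact this.mono_left nhdsWithin_le_nhds
      · filter_upwards [h1, self_mem_nhdsWithin] with w hw hne
        have hwD : w ∈ D := hbD w (by simpa using (mem_ball_zero_iff.1 hw).le)
        have h3 := (hΦS a ha w hwD).1
        have hpos : 0 < ‖w - a‖ := norm_pos_iff.2 (sub_ne_zero.2 hne)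
        have h4 : 0 < ‖Φ w - a‖ := by linarith
        exact sub_ne_zero.1 (norm_pos_iff.1 h4)
    refine ⟨Real.log 2 + C - δ, ?_⟩
    filter_upwards [h1, self_mem_nhdsWithin, h2.eventually hC] with w hw hne hCw
    have hw' : ‖w‖ < ρ1 := by simpa using hw
    have hwD : w ∈ D := hbD w hw'.le
    have hpos : 0 < ‖w - a‖ := norm_pos_iff.2 (sub_ne_zero.2 hne)
    have h3 := hΦS a ha w hwD
    have h4 : 0 < ‖Φ w - a‖ := by linarith [h3.1]
    rw [hv1 w hw', ereal_add_le]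
    refine hCw.trans ?_
    rw [EReal.coe_le_coe_iff]
    have h5 : Real.log ‖Φ w - a‖ ≤ Real.log 2 + Real.log ‖w - a‖ := by
      rw [← Real.log_mul (by norm_num) hpos.ne']
      exact Real.log_le_log h4 h3.2
    linarith
  · intro z hz
    by_cases h1 : ‖z‖ < ρ1
    · rw [hv1 z h1]
    · rw [hv2 z hz (by linarith)]
      exact le_max_left _ _
  · intro z hz h1
    by_cases h2 : z ∈ D
    · rw [hv2 z h2 (by linarith)]
      exact le_max_right _ _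
    · rw [hv3 z hz (fun h => h2 (hLD h))]

end

end Pool.Agent.U882.GC
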