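import Mathlib
import Pool.Agent.U882.GC.Equi

set_option autoImplicit false

open MeasureTheory Filter Topology Complex Set

namespace Pool.Agent.U882.GC

open Pool.Agent.Helper311.GB

noncomputable section

/-- uniform modulus of continuity, and uniform bounds, for the multipole Green functions -/
theorem equi {n N : ℕ} {Ω : Set (EuclideanSpace ℂ (Fin n))} (hΩ : IsOpen Ω)
    (hb : Bornology.IsBounded Ω) (hh : Hyperconvex Ω) (h0 : (0 : EuclideanSpace ℂ (Fin n)) ∈ Ω)
    (K : Set (EuclideanSpace ℂ (Fin n))) (hK : IsCompact K) (hKΩ : K ⊆ Ω)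
    (h0K : (0 : EuclideanSpace ℂ (Fin n)) ∉ K) :
    ∃ ρ0 : ℝ, 0 < ρ0 ∧ (∃ A : ℝ, ∀ a : Fin N → EuclideanSpace ℂ (Fin n), (∀ j, ‖a j‖ < ρ0) →
        ∀ z ∈ K, ((-A : ℝ) : EReal) ≤ greenS Ω (Set.range a) z ∧ greenS Ω (Set.range a) z ≤ 0) ∧
      ∀ δ : ℝ, 0 < δ → ∃ η : ℝ, 0 < η ∧
        ∀ a : Fin N → EuclideanSpace ℂ (Fin n), (∀ j, ‖a j‖ < ρ0) → ∀ z ∈ K,
          ∀ h : EuclideanSpace ℂ (Fin n), ‖h‖ < η →
            greenS Ω (Set.range a) (z + h) ≤ greenS Ω (Set.range a) z + (δ : EReal) := by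
  obtain ⟨ψ, hψ, hψneg, hψex⟩ := hh
  -- distance of `K` to the origin
  obtain ⟨r0, hr0, hKr0⟩ : ∃ r0 : ℝ, 0 < r0 ∧ ∀ z ∈ K, r0 ≤ ‖z‖ := by
    obtain ⟨r, hr, hr'⟩ := Metric.isOpen_iff.1 hK.isClosed.isOpen_compl 0 h0K
    refine ⟨r, hr, fun z hz => ?_⟩
    by_contra hlt
    push Not at hlt
    exact hr' (by simpa using hlt) hz
  obtain ⟨ρ1, hρ1, hρ1Ω⟩ := Metric.nhds_basis_closedBall.mem_iff.1 (hΩ.mem_nhds h0)
  obtain ⟨c, hc, hψc⟩ : ∃ c : ℝ, 0 < c ∧ ∀ z, ‖z‖ ≤ ρ1 → ψ z ≤ ((-c : ℝ) : EReal) := by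
    obtain ⟨zm, hzm, hmax⟩ := (hψ.1.mono hρ1Ω).exists_isMaxOn
      ⟨0, Metric.mem_closedBall_self hρ1.le⟩ (isCompact_closedBall _ _)
    obtain ⟨c, hc1, hc2⟩ := EReal.lt_iff_exists_real_btwn.1 (hψneg zm (hρ1Ω hzm))
    refine ⟨-c, ?_, fun z hz => ?_⟩
    · have : (c : EReal) < ((0 : ℝ) : EReal) := by simpa using hc2
      rw [EReal.coe_lt_coe_iff] at this
      linarith
    · rw [neg_neg]
      exact (hmax (show z ∈ Metric.closedBall 0 ρ1 by simpa using hz)).trans hc1.le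
  obtain ⟨R0, hR0, hΩR0⟩ := hb.exists_pos_norm_le
  set R : ℝ := R0 + ρ1 + r0 + 1 with hR
  have hR1 : 1 ≤ R := by linarith
  have hRpos : 0 < R := by linarith
  set ρ0 : ℝ := min (r0 / 2) (ρ1 / 4) with hρ0
  have hρ0pos : 0 < ρ0 := lt_min (by positivity) (by positivity)
  have hρ0r : ρ0 ≤ r0 / 2 := min_le_left _ _
  have hρ0ρ : ρ0 ≤ ρ1 / 4 := min_le_right _ _
  have hzaR : ∀ a : Fin N → EuclideanSpace ℂ (Fin n), (∀ j, ‖a j‖ < ρ0) →
      ∀ z ∈ Ω, ∀ j, ‖z - a j‖ ≤ R := by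
    intro a ha z hz j
    have h1 := norm_sub_le z (a j)
    have h2 := hΩR0 z hz
    have h3 := (ha j).le
    linarith
  have haΩ : ∀ a : Fin N → EuclideanSpace ℂ (Fin n), (∀ j, ‖a j‖ < ρ0) → ∀ j, a j ∈ Ω := by
    intro a ha j
    apply hρ1Ω
    rw [mem_closedBall_zero_iff]
    have := (ha j).le
    linarith
  refine ⟨ρ0, hρ0pos, ⟨-(N * Real.log (r0 / 2) + (-(N * Real.log R) - 1)), ?_⟩, ?_⟩
  · intro a ha z hz
    constructor
    · refine le_trans ?_ (le_greenS (comp_LN hΩ a (haΩ a ha) R hR1 (hzaR a ha)) z)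
      have h1 := LN_lower a z (r0 / 2) (by positivity) (fun j => by
        have h1 := norm_sub_norm_le z (a j)
        have h2 := hKr0 z hz
        have h3 := (ha j).le
        linarith)
      rw [neg_neg, EReal.coe_add]
      exact add_le_add_left h1 _
    · exact greenS_le _ fun u hu => (hu.2.1 z (hKΩ hz)).le
  intro δ hδ
  set A : ℝ := N * Real.log (8 * R / ρ1) + 1 + δ with hA
  have hlog8 : 0 ≤ Real.log (8 * R / ρ1) := by
    apply Real.log_nonneg
    rw [le_div_iff₀ hρ1]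
    linarith
  have hApos : 0 < A := by positivity
  set M : ℝ := A / c with hM
  have hMpos : 0 < M := by positivity
  obtain ⟨Kc, hKc, hKcΩ, hKcex⟩ := hψex (-(δ / M)) (by
    have : 0 < δ / M := by positivity
    linarith)
  set L : Set (EuclideanSpace ℂ (Fin n)) := Kc ∪ (Metric.closedBall 0 ρ1 ∪ K) with hL
  have hLcpt : IsCompact L := hKc.union ((isCompact_closedBall _ _).union hK)
  have hLΩ : L ⊆ Ω := union_subset hKcΩ (union_subset hρ1Ω hKΩ)
  obtain ⟨τ, hτ, hτΩ⟩ := hLcpt.exists_cthickening_subset_open hΩ hLΩ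
  set D : Set (EuclideanSpace ℂ (Fin n)) := Metric.thickening (τ / 2) L with hD
  have hDo : IsOpen D := Metric.isOpen_thickening
  have hLD : L ⊆ D := Metric.self_subset_thickening (by positivity) L
  have hDΩ : D ⊆ Ω := (Metric.thickening_mono (by linarith) L).trans
    ((Metric.thickening_subset_cthickening τ L).trans hτΩ)
  set B : ℝ := (R * (2 / r0)) ^ N with hB
  have hbase : 1 ≤ R * (2 / r0) := by
    rw [← mul_div_assoc, le_div_iff₀ hr0]
    linarith
  have hBpos : 0 < B := by positivity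
  set η : ℝ := min (τ / (2 * B)) (min (ρ1 / (8 * B)) (1 / (2 * (2 / r0 * B)))) with hη
  have hηpos : 0 < η := lt_min (by positivity) (lt_min (by positivity) (by positivity))
  refine ⟨η, hηpos, ?_⟩
  intro a ha z0 hz0 h hh
  have hh1 : ‖h‖ * B < τ / 2 := by
    have h1 : ‖h‖ < τ / (2 * B) := lt_of_lt_of_le hh (min_le_left _ _)
    rw [lt_div_iff₀ (by positivity)] at h1
    linarith
  have hh2 : ‖h‖ * B < ρ1 / 8 := by
    have h1 : ‖h‖ < ρ1 / (8 * B) :=
      lt_of_lt_of_le hh ((min_le_right _ _).trans (min_le_left _ _))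
    rw [lt_div_iff₀ (by positivity)] at h1
    linarith
  have hh3 : ‖h‖ * (2 / r0 * B) < 1 / 2 := by
    have h1 : ‖h‖ < 1 / (2 * (2 / r0 * B)) :=
      lt_of_lt_of_le hh ((min_le_right _ _).trans (min_le_right _ _))
    rw [lt_div_iff₀ (by positivity)] at h1
    linarith
  have ha2 : ∀ j, ‖a j‖ ≤ r0 / 2 := fun j => (ha j).le.trans hρ0r
  have hz0r := hKr0 z0 hz0
  set Φ : EuclideanSpace ℂ (Fin n) → EuclideanSpace ℂ (Fin n) := fun z => z + PP a z0 z • h
    with hΦdef
  have hΦz0 : Φ z0 = z0 + h := by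
    simp only [hΦdef]
    rw [PP_self a z0 r0 hr0 hz0r ha2, one_smul]
  have hΦclose : ∀ z ∈ Ω, ‖Φ z - z‖ ≤ ‖h‖ * B := by
    intro z hz
    simp only [hΦdef]
    rw [add_sub_cancel_left, norm_smul, mul_comm]
    exact mul_le_mul_of_nonneg_left (PP_bound a z0 z r0 R hr0 hz0r ha2 (hzaR a ha z hz))
      (norm_nonneg _)
  have hΦclose2 : ∀ z ∈ Ω, ∀ j, ‖Φ z - z‖ ≤ ‖z - a j‖ / 2 := by
    intro z hz j
    simp only [hΦdef]
    rw [add_sub_cancel_left, norm_smul]
    have h1 := PP_lip a z0 z r0 R hr0 hz0r ha2 (hzaR a ha z hz) hbase j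
    calc ‖PP a z0 z‖ * ‖h‖ ≤ ‖z - a j‖ * (2 / r0 * B) * ‖h‖ :=
          mul_le_mul_of_nonneg_right h1 (norm_nonneg _)
      _ = ‖z - a j‖ * (‖h‖ * (2 / r0 * B)) := by ring
      _ ≤ ‖z - a j‖ * (1 / 2) := mul_le_mul_of_nonneg_left hh3.le (norm_nonneg _)
      _ = ‖z - a j‖ / 2 := by ring
  have hPPc : Continuous (fun z => PP a z0 z) := by
    unfold PP
    refine continuous_finsetProd _ fun j _ => ?_
    refine Continuous.div_const ?_ _
    exact (innerSL ℂ z0).continuous.comp (continuous_id.sub continuous_const)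
  have hΦc : Continuous Φ := continuous_id.add (hPPc.smul continuous_const)
  have hΦd : ∀ x b, Differentiable ℂ (fun ζ : ℂ => Φ (x + ζ • b)) := by
    intro x b
    simp only [hΦdef]
    refine Differentiable.add (by fun_prop) (Differentiable.smul_const ?_ _)
    unfold PP
    apply Differentiable.fun_finsetProd
    intro j _
    refine Differentiable.div_const ?_ _
    exact (innerSL ℂ z0).differentiable.comp (by fun_prop)
  have hΦD : ∀ z ∈ D, Φ z ∈ Ω := by
    intro z hz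
    apply hτΩ
    apply Metric.thickening_subset_cthickening
    obtain ⟨y, hyL, hy⟩ := Metric.mem_thickening_iff.1 hz
    refine Metric.mem_thickening_iff.2 ⟨y, hyL, ?_⟩
    have h1 : dist (Φ z) z < τ / 2 := by
      rw [dist_eq_norm]
      exact lt_of_le_of_lt (hΦclose z (hDΩ hz)) hh1
    have := dist_triangle (Φ z) z y
    linarith
  have hz0D : z0 ∈ D := hLD (Or.inr (Or.inr hz0))
  apply greenS_le
  intro u hu
  apply ereal_le_add_of
  set w : EuclideanSpace ℂ (Fin n) → EReal :=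
    fun z => LN a z + ((-(N * Real.log R) - 1 : ℝ) : EReal) with hw
  have hwc : Comp Ω (Set.range a) w := comp_LN hΩ a (haΩ a ha) R hR1 (hzaR a ha)
  have hu' : Comp Ω (Set.range a) (fun z => max (u z) (w z)) := comp_max hu hwc
  obtain ⟨v, hv, hvle, _⟩ := comp_shift hΩ ψ hψ hψneg ρ1 δ M hρ1 hMpos hδ L D hLcpt.isClosed hDo
    hLD hDΩ (fun z hz => Or.inr (Or.inl hz)) (by
      intro z hz hzL
      have h1 : ¬ ψ z < ((-(δ / M) : ℝ) : EReal) := fun h => hzL (Or.inl (hKcex z hz h))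
      push Not at h1
      have h2 : (M : EReal) * ((-(δ / M) : ℝ) : EReal) ≤ (M : EReal) * ψ z :=
        mul_le_mul_of_nonneg_left h1 (by exact_mod_cast hMpos.le)
      refine le_trans (le_of_eq ?_) h2
      rw [← EReal.coe_mul]
      congr 1
      field_simp) Φ hΦc hΦd hΦD (Set.range a) (by
      rintro _ ⟨j, rfl⟩
      have := ha j
      linarith) (by
      rintro _ ⟨j, rfl⟩ z hz
      have h1 := hΦclose2 z (hDΩ hz) j
      have h2 : Φ z - a j = (z - a j) + (Φ z - z) := by abel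
      have h3 := norm_add_le (z - a j) (Φ z - z)
      have h4 : ‖z - a j‖ ≤ ‖Φ z - a j‖ + ‖Φ z - z‖ := by
        have := norm_sub_le (Φ z - a j) (Φ z - z)
        rwa [show Φ z - a j - (Φ z - z) = z - a j by abel] at this
      rw [← h2] at h3
      have h5 := norm_nonneg (z - a j)
      constructor <;> linarith) (fun z => max (u z) (w z)) hu' (by
      intro z hz1 hz2
      have hzΩ : z ∈ Ω := hρ1Ω (by simpa using hz2.le)
      have h1 : (M : EReal) * ψ z ≤ (M : EReal) * ((-c : ℝ) : EReal) :=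
        mul_le_mul_of_nonneg_left (hψc z hz2.le) (by exact_mod_cast hMpos.le)
      refine h1.trans ?_
      have h2 : ((N * Real.log (ρ1 / 8) : ℝ) : EReal) ≤ LN a (Φ z) := by
        apply LN_lower a (Φ z) (ρ1 / 8) (by positivity)
        intro j
        have e1 := hΦclose z hzΩ
        have e2 := ha j
        have e3 : ‖z‖ ≤ ‖Φ z - a j‖ + ‖a j‖ + ‖Φ z - z‖ := by
          have e4 : z = (Φ z - a j) + a j - (Φ z - z) := by abel
          calc ‖z‖ = ‖(Φ z - a j) + a j - (Φ z - z)‖ := by rw [← e4]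
            _ ≤ ‖(Φ z - a j) + a j‖ + ‖Φ z - z‖ := norm_sub_le _ _
            _ ≤ _ := by
              have := norm_add_le (Φ z - a j) (a j)
              linarith
        linarith
      have h3 : (M : EReal) * ((-c : ℝ) : EReal) =
          ((N * Real.log (ρ1 / 8) : ℝ) : EReal) + ((-(N * Real.log R) - 1 : ℝ) : EReal) +
            ((-δ : ℝ) : EReal) := by
        rw [← EReal.coe_mul, ← EReal.coe_add, ← EReal.coe_add]
        congr 1
        have e1 : M * -c = -A := by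
          rw [hM]
          field_simp
        rw [e1, hA, show 8 * R / ρ1 = R / (ρ1 / 8) by field_simp,
          Real.log_div hRpos.ne' (by positivity)]
        ring
      rw [h3]
      refine add_le_add_left ?_ _
      refine le_trans ?_ (le_max_right _ _)
      exact add_le_add_left h2 _)
  have h1 := hvle z0 hz0D
  rw [hΦz0] at h1
  refine le_trans ?_ (h1.trans (le_greenS hv z0))
  exact add_le_add_left (le_max_left _ _) _

end

end Pool.Agent.U882.GC
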