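import Mathlib

set_option autoImplicit false

open MeasureTheory Filter Topology Set

namespace Pool.Agent.U882.GC

section

variable {E : Type} [NormedAddCommGroup E] [NormedSpace ℝ E] [FiniteDimensional ℝ E]
  [MeasurableSpace E] [BorelSpace E]

/-- the hypotheses of the convergence lemma -/
structure Hyp {ι : Type} (μ : Measure E) (l : Filter ι) (U : Set E) (f : ι → E → ℝ) (g : E → ℝ) :
    Prop where
  meas : ∀ K ⊆ U, IsCompact K → AEStronglyMeasurable g (μ.restrict K)
  conv : ∀ K ⊆ U, IsCompact K → Tendsto (fun i => ∫⁻ z in K, ‖f i z - g z‖ₑ ∂μ) l (𝓝 0)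
  cont : ∀ K ⊆ U, IsCompact K → ∀ᶠ i in l, ContinuousOn (f i) K
  equi : ∀ K ⊆ U, IsCompact K → ∀ δ : ℝ, 0 < δ → ∃ η : ℝ, 0 < η ∧
    ∀ᶠ i in l, ∀ z ∈ K, ∀ w ∈ K, dist z w < η → |f i z - f i w| ≤ δ

theorem Hyp.aem {ι : Type} {μ : Measure E} {l : Filter ι} {U : Set E} {f : ι → E → ℝ} {g : E → ℝ}
    (H : Hyp μ l U f g) {K : Set E} (hKU : K ⊆ U) (hK : IsCompact K) :
    ∀ᶠ i in l, AEMeasurable (fun z => ‖f i z - g z‖ₑ) (μ.restrict K) := by
  filter_upwards [H.cont K hKU hK] with i hi
  exact ((hi.aestronglyMeasurable hK.measurableSet).sub (H.meas K hKU hK)).enorm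

theorem Hyp.cauchy {ι : Type} {μ : Measure E} [μ.IsAddHaarMeasure] {l : Filter ι} {U : Set E}
    (hU : IsOpen U) {f : ι → E → ℝ} {g : E → ℝ}
    (H : Hyp μ l U f g) {K : Set E} (hKU : K ⊆ U) (hK : IsCompact K) :
    UniformCauchySeqOn f l K := by
  haveI : ProperSpace E := FiniteDimensional.proper ℝ E
  obtain ⟨r, hr, hrU⟩ := hK.exists_cthickening_subset_open hU hKU
  set K' := Metric.cthickening r K with hK'
  have hK'c : IsCompact K' := hK.cthickening
  intro u hu
  obtain ⟨δ, hδ, hδu⟩ := Metric.mem_uniformity_dist.1 hu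
  obtain ⟨η, hη, hequi⟩ := H.equi K' hrU hK'c (δ / 8) (by positivity)
  set s : ℝ := min r η / 2 with hs
  have hmin : 0 < min r η := lt_min hr hη
  have hs0 : 0 < s := by positivity
  have hsr : s < r := by
    have := min_le_left r η
    rw [hs]; linarith
  have hsη : s < η := by
    have := min_le_right r η
    rw [hs]; linarith
  set m : ENNReal := μ (Metric.ball 0 s) with hm
  have hm0 : 0 < m := Metric.measure_ball_pos μ 0 hs0
  have hmtop : m ≠ ⊤ := (measure_ball_lt_top (μ := μ)).ne
  set κ : ENNReal := ENNReal.ofReal (δ / 4) with hκ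
  have hκ0 : 0 < κ := ENNReal.ofReal_pos.2 (by positivity)
  have hT : 0 < κ * (m / 2) := by
    apply ENNReal.mul_pos hκ0.ne'
    exact (ENNReal.half_pos hm0.ne').ne'
  have hgood : ∀ᶠ i in l, (∀ z ∈ K', ∀ w ∈ K', dist z w < η → |f i z - f i w| ≤ δ / 8) ∧
      (μ.restrict K') {w | κ ≤ ‖f i w - g w‖ₑ} < m / 2 := by
    filter_upwards [hequi, (tendsto_order.1 (H.conv K' hrU hK'c)).2 _ hT, H.aem hrU hK'c]
      with i h1 h2 h3
    refine ⟨h1, ?_⟩
    have h4 := mul_meas_ge_le_lintegral₀ h3 κ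
    exact lt_of_mul_lt_mul_left' (lt_of_le_of_lt h4 h2)
  filter_upwards [hgood.prod_mk hgood] with ij hij
  obtain ⟨⟨hi1, hi2⟩, ⟨hj1, hj2⟩⟩ := hij
  intro z hz
  apply hδu
  rw [Real.dist_eq]
  by_contra hlt
  push Not at hlt
  have hballK' : Metric.ball z s ⊆ K' := by
    intro w hw
    exact Metric.mem_cthickening_of_dist_le w z r K hz
      ((le_of_lt (Metric.mem_ball.1 hw)).trans hsr.le)
  have hzK' : z ∈ K' := hballK' (Metric.mem_ball_self hs0)
  have hsub : Metric.ball z s ⊆
      {w | κ ≤ ‖f ij.1 w - g w‖ₑ} ∪ {w | κ ≤ ‖f ij.2 w - g w‖ₑ} := by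
    intro w hw
    have hd : dist z w < η := by
      rw [dist_comm]
      exact (Metric.mem_ball.1 hw).trans hsη
    have h1 := hi1 z hzK' w (hballK' hw) hd
    have h2 := hj1 z hzK' w (hballK' hw) hd
    by_contra hcon
    simp only [mem_union, mem_setOf_eq, not_or, not_le] at hcon
    obtain ⟨h3, h4⟩ := hcon
    rw [Real.enorm_eq_ofReal_abs, hκ, ENNReal.ofReal_lt_ofReal_iff (by positivity)] at h3 h4
    have h5 : |f ij.1 z - f ij.2 z| ≤ |f ij.1 z - f ij.1 w| + |f ij.2 z - f ij.2 w| +
        |f ij.1 w - g w| + |f ij.2 w - g w| := by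
      rw [show f ij.1 z - f ij.2 z = (f ij.1 z - f ij.1 w) - (f ij.2 z - f ij.2 w) +
        (f ij.1 w - g w) - (f ij.2 w - g w) by ring]
      refine (abs_sub _ _).trans ?_
      refine add_le_add_left ((abs_add_le _ _).trans ?_) _
      refine add_le_add_left (abs_sub _ _) _
    linarith
  have h6 : (μ.restrict K') (Metric.ball z s) = m := by
    rw [Measure.restrict_apply Metric.isOpen_ball.measurableSet,
      inter_eq_left.2 hballK', Measure.addHaar_ball_center]
  have h7 : m < m := by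
    calc m = (μ.restrict K') (Metric.ball z s) := h6.symm
      _ ≤ (μ.restrict K') ({w | κ ≤ ‖f ij.1 w - g w‖ₑ} ∪ {w | κ ≤ ‖f ij.2 w - g w‖ₑ}) :=
          measure_mono hsub
      _ ≤ _ := measure_union_le _ _
      _ < m / 2 + m / 2 := ENNReal.add_lt_add hi2 hj2
      _ = m := ENNReal.add_halves m
  exact lt_irrefl _ h7

/-- convergence in `L¹` on compact sets of an asymptotically equicontinuous family is uniform on
compact sets, towards a continuous representative of the limit -/
theorem Hyp.main {ι : Type} {μ : Measure E} [μ.IsAddHaarMeasure] {l : Filter ι} [l.NeBot]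
    {U : Set E} (hU : IsOpen U) {f : ι → E → ℝ} {g : E → ℝ} (H : Hyp μ l U f g) :
    ∃ G : E → ℝ, ContinuousOn G U ∧ (∀ᵐ z ∂(μ.restrict U), g z = G z) ∧
      ∀ K ⊆ U, IsCompact K → TendstoUniformlyOn f G l K := by
  haveI : ProperSpace E := FiniteDimensional.proper ℝ E
  have hpt : ∀ z ∈ U, ∃ y : ℝ, Tendsto (fun i => f i z) l (𝓝 y) := by
    intro z hz
    have h1 := H.cauchy hU (K := {z}) (by simpa using hz) isCompact_singleton
    rw [← cauchy_map_iff_exists_tendsto]
    exact h1.cauchy_map (by simp)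
  classical
  choose! G hG using hpt
  have huni : ∀ K ⊆ U, IsCompact K → TendstoUniformlyOn f G l K := fun K hKU hK =>
    (H.cauchy hU hKU hK).tendstoUniformlyOn_of_tendsto fun z hz => hG z (hKU hz)
  refine ⟨G, ?_, ?_, huni⟩
  · intro z hz
    obtain ⟨r, hr, hrU⟩ := Metric.nhds_basis_closedBall.mem_iff.1 (hU.mem_nhds hz)
    have h1 := (huni _ hrU (isCompact_closedBall z r)).continuousOn
      (H.cont _ hrU (isCompact_closedBall z r)).frequently
    exact (h1.continuousAt (Metric.closedBall_mem_nhds z hr)).continuousWithinAt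
  · rw [ae_restrict_iff' hU.measurableSet, ae_iff]
    apply measure_null_of_locally_null
    intro z hz
    have hzU : z ∈ U := by
      by_contra hzU
      exact hz fun h => absurd h hzU
    obtain ⟨r, hr, hrU⟩ := Metric.nhds_basis_closedBall.mem_iff.1 (hU.mem_nhds hzU)
    set K := Metric.closedBall z r with hK
    have hKc : IsCompact K := isCompact_closedBall z r
    have hGc : ContinuousOn G K := (huni _ hrU hKc).continuousOn (H.cont _ hrU hKc).frequently
    have hmeas : AEMeasurable (fun z => ‖G z - g z‖ₑ) (μ.restrict K) :=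
      ((hGc.aestronglyMeasurable hKc.measurableSet).sub (H.meas K hrU hKc)).enorm
    have hzero : ∫⁻ w in K, ‖G w - g w‖ₑ ∂μ = 0 := by
      have hKfin : μ K ≠ ⊤ := hKc.measure_lt_top.ne
      refine le_antisymm ?_ bot_le
      refine ENNReal.le_of_forall_pos_le_add fun ε hε _ => ?_
      rw [zero_add]
      have hε2 : (0 : ENNReal) < (ε : ENNReal) / 2 := ENNReal.half_pos (by exact_mod_cast hε.ne')
      set κ : ℝ := (ε : ℝ) / 2 / ((μ K).toReal + 1) with hκ
      have hκ0 : 0 < κ := by positivity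
      obtain ⟨i, h1, h2, h3⟩ := (((tendsto_order.1 (H.conv K hrU hKc)).2 _ hε2).and
        ((Metric.tendstoUniformlyOn_iff.1 (huni K hrU hKc) κ hκ0).and (H.aem hrU hKc))).exists
      calc ∫⁻ w in K, ‖G w - g w‖ₑ ∂μ
          ≤ ∫⁻ w in K, (‖f i w - g w‖ₑ + ENNReal.ofReal κ) ∂μ := by
            refine setLIntegral_mono' hKc.measurableSet fun w hw => ?_
            have h4 := (h2 w hw).le
            rw [Real.dist_eq] at h4
            have h5 : G w - g w = (f i w - g w) + (G w - f i w) := by ring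
            rw [h5]
            refine (enorm_add_le _ _).trans (add_le_add_right ?_ _)
            rw [Real.enorm_eq_ofReal_abs]
            exact ENNReal.ofReal_le_ofReal h4
        _ = ∫⁻ w in K, ‖f i w - g w‖ₑ ∂μ + ENNReal.ofReal κ * μ K := by
            rw [lintegral_add_left' h3, setLIntegral_const]
        _ ≤ (ε : ENNReal) / 2 + (ε : ENNReal) / 2 := by
            refine add_le_add h1.le ?_
            have h6 : μ K = ENNReal.ofReal (μ K).toReal := (ENNReal.ofReal_toReal hKfin).symm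
            rw [h6, ← ENNReal.ofReal_mul hκ0.le]
            have h7 : κ * (μ K).toReal ≤ (ε : ℝ) / 2 := by
              rw [hκ, div_mul_eq_mul_div, div_le_iff₀ (by positivity)]
              have : (0 : ℝ) ≤ (ε : ℝ) / 2 := by positivity
              nlinarith
            refine (ENNReal.ofReal_le_ofReal h7).trans (le_of_eq ?_)
            rw [ENNReal.ofReal_div_of_pos (by norm_num), ENNReal.ofReal_coe_nnreal]
            simp
        _ = (ε : ENNReal) := ENNReal.add_halves _
    have hae := (lintegral_eq_zero_iff' hmeas).1 hzero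
    refine ⟨{a | ¬(a ∈ U → g a = G a)} ∩ K, ?_, ?_⟩
    · exact inter_mem_nhdsWithin _ (Metric.closedBall_mem_nhds z hr)
    · rw [EventuallyEq, ae_restrict_iff' hKc.measurableSet, ae_iff] at hae
      refine measure_mono_null ?_ hae
      rintro w ⟨hw1, hw2⟩
      simp only [mem_setOf_eq, Classical.not_imp] at hw1 ⊢
      refine ⟨hw2, fun h => hw1.2 ?_⟩
      have h8 : ‖G w - g w‖ₑ = 0 := h
      rw [enorm_eq_zero, sub_eq_zero] at h8
      exact h8.symm

end

end Pool.Agent.U882.GC
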