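import Mathlib
import Pool.Agent.U882.GC.Equi2
import Pool.Agent.U882.GC.Lim

set_option autoImplicit false

open MeasureTheory Filter Topology Complex Set

namespace Pool.Agent.U882.GC

open Pool.Agent.Helper311.GB

noncomputable section

theorem real_of_bdd {x : EReal} {A : ℝ} (h1 : ((-A : ℝ) : EReal) ≤ x) (h2 : x ≤ 0) :
    x = ((x.toReal : ℝ) : EReal) := by
  refine (EReal.coe_toReal ?_ ?_).symm
  · intro h
    rw [h] at h2
    exact absurd h2 (by simp)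
  · intro h
    rw [h] at h1
    exact EReal.coe_ne_bot _ (le_bot_iff.1 h1)

/-- uniform equicontinuity, real-valued form -/
theorem equi_real {n N : ℕ} {Ω : Set (EuclideanSpace ℂ (Fin n))} (hΩ : IsOpen Ω)
    (hb : Bornology.IsBounded Ω) (hh : Hyperconvex Ω) (h0 : (0 : EuclideanSpace ℂ (Fin n)) ∈ Ω)
    (K : Set (EuclideanSpace ℂ (Fin n))) (hK : IsCompact K) (hKΩ : K ⊆ Ω \ {0}) :
    ∃ ρ0 : ℝ, 0 < ρ0 ∧ (∃ A : ℝ, ∀ a : Fin N → EuclideanSpace ℂ (Fin n), (∀ j, ‖a j‖ < ρ0) →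
        ∀ z ∈ K, ((-A : ℝ) : EReal) ≤ greenS Ω (Set.range a) z ∧ greenS Ω (Set.range a) z ≤ 0) ∧
      ∀ δ : ℝ, 0 < δ → ∃ η : ℝ, 0 < η ∧
        ∀ a : Fin N → EuclideanSpace ℂ (Fin n), (∀ j, ‖a j‖ < ρ0) → ∀ z ∈ K, ∀ w ∈ K,
          dist z w < η →
            |(greenS Ω (Set.range a) z).toReal - (greenS Ω (Set.range a) w).toReal| ≤ δ := by
  obtain ⟨ρ0, hρ0, ⟨A, hA⟩, hequi⟩ := equi (N := N) hΩ hb hh h0 K hK
    (hKΩ.trans diff_subset) (fun h => (hKΩ h).2 rfl)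
  refine ⟨ρ0, hρ0, ⟨A, hA⟩, fun δ hδ => ?_⟩
  obtain ⟨η, hη, h⟩ := hequi δ hδ
  refine ⟨η, hη, fun a ha => ?_⟩
  have key : ∀ z ∈ K, ∀ w ∈ K, dist z w < η →
      (greenS Ω (Set.range a) z).toReal - (greenS Ω (Set.range a) w).toReal ≤ δ := by
    intro z hz w hw hd
    have h1 := h a ha w hw (z - w) (by rwa [← dist_eq_norm])
    rw [add_sub_cancel] at h1
    rw [real_of_bdd (hA a ha z hz).1 (hA a ha z hz).2,
      real_of_bdd (hA a ha w hw).1 (hA a ha w hw).2, ← EReal.coe_add, EReal.coe_le_coe_iff] at h1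
    linarith
  intro z hz w hw hd
  rw [abs_le]
  constructor
  · have := key w hw z hz (by rwa [dist_comm])
    linarith
  · exact key z hz w hw hd

theorem hyp_green {n N : ℕ} {Ω : Set (EuclideanSpace ℂ (Fin n))} (hΩ : IsOpen Ω)
    (hb : Bornology.IsBounded Ω) (hh : Hyperconvex Ω) (h0 : (0 : EuclideanSpace ℂ (Fin n)) ∈ Ω)
    {ι : Type} (l : Filter ι) (a : ι → Fin N → EuclideanSpace ℂ (Fin n))
    (ha : ∀ j, Tendsto (fun i => a i j) l (𝓝 0)) (g : EuclideanSpace ℂ (Fin n) → ℝ)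
    (hg : LocallyIntegrableOn g Ω)
    (hconv : ∀ K ⊆ Ω, IsCompact K → Tendsto
      (fun i => ∫⁻ z in K, ‖(greenS Ω (Set.range (a i)) z).toReal - g z‖ₑ) l (𝓝 0)) :
    Hyp volume l (Ω \ {0}) (fun i z => (greenS Ω (Set.range (a i)) z).toReal) g := by
  have hsmall : ∀ ρ0 : ℝ, 0 < ρ0 → ∀ᶠ i in l, ∀ j, ‖a i j‖ < ρ0 := by
    intro ρ0 hρ0
    rw [eventually_all]
    intro j
    have := (ha j).eventually (Metric.ball_mem_nhds (0 : EuclideanSpace ℂ (Fin n)) hρ0)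
    filter_upwards [this] with i hi
    simpa using hi
  refine ⟨?_, ?_, ?_, ?_⟩
  · intro K hK hKc
    exact (hg.integrableOn_compact_subset (hK.trans diff_subset) hKc).aestronglyMeasurable
  · intro K hK hKc
    exact hconv K (hK.trans diff_subset) hKc
  · intro K hK hKc
    obtain ⟨ρ0, hρ0, _, hequi⟩ := equi_real (N := N) hΩ hb hh h0 K hKc hK
    filter_upwards [hsmall ρ0 hρ0] with i hi
    rw [Metric.continuousOn_iff]
    intro z hz ε hε
    obtain ⟨η, hη, h⟩ := hequi (ε / 2) (by positivity)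
    refine ⟨η, hη, fun w hw hd => ?_⟩
    rw [Real.dist_eq]
    have := h (a i) hi w hw z hz hd
    linarith
  · intro K hK hKc δ hδ
    obtain ⟨ρ0, hρ0, _, hequi⟩ := equi_real (N := N) hΩ hb hh h0 K hKc hK
    obtain ⟨η, hη, h⟩ := hequi δ hδ
    refine ⟨η, hη, ?_⟩
    filter_upwards [hsmall ρ0 hρ0] with i hi
    exact h (a i) hi

theorem main_green {n N : ℕ} {Ω : Set (EuclideanSpace ℂ (Fin n))} (hΩ : IsOpen Ω)
    (hb : Bornology.IsBounded Ω) (hh : Hyperconvex Ω) (h0 : (0 : EuclideanSpace ℂ (Fin n)) ∈ Ω)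
    {ι : Type} (l : Filter ι) [l.NeBot] (a : ι → Fin N → EuclideanSpace ℂ (Fin n))
    (ha : ∀ j, Tendsto (fun i => a i j) l (𝓝 0)) (g : EuclideanSpace ℂ (Fin n) → ℝ)
    (hg : LocallyIntegrableOn g Ω)
    (hconv : ∀ K ⊆ Ω, IsCompact K → Tendsto
      (fun i => ∫⁻ z in K, ‖(greenS Ω (Set.range (a i)) z).toReal - g z‖ₑ) l (𝓝 0)) :
    ∃ G : EuclideanSpace ℂ (Fin n) → ℝ, ContinuousOn G (Ω \ {0}) ∧
      (∀ᵐ z ∂(volume.restrict (Ω \ {0})), g z = G z) ∧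
      ∀ K ⊆ Ω \ {0}, IsCompact K →
        TendstoUniformlyOn (fun i z => (greenS Ω (Set.range (a i)) z).toReal) G l K :=
  (hyp_green hΩ hb hh h0 l a ha g hg hconv).main (hΩ.sdiff isClosed_singleton)

end

end Pool.Agent.U882.GC
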