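import Mathlib
import Pool.Agent.U882.GC.Psh

set_option autoImplicit false

open MeasureTheory Filter Topology Complex Set

namespace Pool.Agent.U882.GC

open Pool.Agent.Helper311.GB

noncomputable section

variable {n : ℕ}

/-- a null set meets almost no circle around a given point -/
theorem circle_null (z : EuclideanSpace ℂ (Fin n)) (Z : Set (EuclideanSpace ℂ (Fin n)))
    (hZm : MeasurableSet Z) (hZ : volume Z = 0) :
    ∀ᵐ b : EuclideanSpace ℂ (Fin n), (volume.restrict (Set.Ioc (0:ℝ) (2 * Real.pi)))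
      {θ : ℝ | z + circleMap 0 1 θ • b ∈ Z} = 0 := by
  have hc : Continuous (fun p : EuclideanSpace ℂ (Fin n) × ℝ => z + circleMap 0 1 p.2 • p.1) := by
    have : Continuous (circleMap 0 1) := continuous_circleMap 0 1
    fun_prop
  set W : Set (EuclideanSpace ℂ (Fin n) × ℝ) :=
    (fun p : EuclideanSpace ℂ (Fin n) × ℝ => z + circleMap 0 1 p.2 • p.1) ⁻¹' Z with hW
  have hWm : MeasurableSet W := hc.measurable hZm
  have hW0 : (volume.prod (volume.restrict (Set.Ioc (0:ℝ) (2 * Real.pi)))) W = 0 := by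
    rw [Measure.prod_apply_symm hWm]
    have h1 : ∀ θ : ℝ, (volume : Measure (EuclideanSpace ℂ (Fin n)))
        ((fun b => (b, θ)) ⁻¹' W) = 0 := by
      intro θ
      have hne : circleMap 0 1 θ ≠ 0 := circleMap_ne_center one_ne_zero
      set L : EuclideanSpace ℂ (Fin n) ≃ₗ[ℝ] EuclideanSpace ℂ (Fin n) :=
        (LinearEquiv.smulOfNeZero ℂ (EuclideanSpace ℂ (Fin n)) (circleMap 0 1 θ)
          hne).restrictScalars ℝ with hL
      have h2 : ((fun b => (b, θ)) ⁻¹' W) = (L : EuclideanSpace ℂ (Fin n) →ₗ[ℝ]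
          EuclideanSpace ℂ (Fin n)) ⁻¹' ((fun h => z + h) ⁻¹' Z) := rfl
      rw [h2, Measure.addHaar_preimage_linearMap volume (LinearEquiv.isUnit_det' L).ne_zero,
        measure_preimage_add, hZ, mul_zero]
    simp only [h1, lintegral_zero]
  have h3 := (Measure.measure_prod_null hWm).1 hW0
  filter_upwards [h3] with b hb
  exact hb

theorem isOpen_lt_psh {U : Set (EuclideanSpace ℂ (Fin n))} (hU : IsOpen U)
    {u : EuclideanSpace ℂ (Fin n) → EReal} (hu : PSH U u) (t : EReal) :
    IsOpen {w | w ∈ U ∧ u w < t} := by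
  rw [isOpen_iff_mem_nhds]
  rintro w ⟨hw, hwt⟩
  have h1 := hu.1 w hw t hwt
  rw [hU.nhdsWithin_eq hw] at h1
  filter_upwards [h1, hU.mem_nhds hw] with x hx hxU
  exact ⟨hxU, hx⟩

/-- a plurisubharmonic function almost everywhere equal to a continuous function is equal to it -/
theorem psh_eq_of_ae {U : Set (EuclideanSpace ℂ (Fin n))} (hU : IsOpen U)
    {u : EuclideanSpace ℂ (Fin n) → EReal} (hu : PSH U u) {G : EuclideanSpace ℂ (Fin n) → ℝ}
    (hG : ContinuousOn G U) (hae : ∀ᵐ z ∂(volume.restrict U), u z = ((G z : ℝ) : EReal)) :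
    ∀ z ∈ U, u z = ((G z : ℝ) : EReal) := by
  intro z hz
  rw [ae_restrict_iff' hU.measurableSet, ae_iff] at hae
  have hGc : ContinuousAt G z := hG.continuousAt (hU.mem_nhds hz)
  apply le_antisymm
  · by_contra hcon
    push Not at hcon
    obtain ⟨t2, ht2, ht2'⟩ := EReal.lt_iff_exists_real_btwn.1 hcon
    obtain ⟨t1, ht1, ht1'⟩ := EReal.lt_iff_exists_real_btwn.1 ht2
    obtain ⟨C, hC, _⟩ := EReal.lt_iff_exists_real_btwn.1 (hu.2.1 z hz)
    rw [EReal.coe_lt_coe_iff] at ht1 ht1'
    have hC' : t1 < C := by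
      have : (t1 : EReal) < C :=
        (EReal.coe_lt_coe_iff.2 ht1').trans (ht2'.trans hC)
      exact_mod_cast this
    have hnear : ∀ᶠ w in 𝓝 z, w ∈ {w | w ∈ U ∧ u w < (C : EReal)} ∧ G w < t1 :=
      (show ∀ᶠ w in 𝓝 z, w ∈ {w | w ∈ U ∧ u w < (C : EReal)} from
        (isOpen_lt_psh hU hu C).mem_nhds ⟨hz, hC⟩).and (hGc.eventually (gt_mem_nhds ht1))
    obtain ⟨r, hr, hball⟩ := Metric.eventually_nhds_iff_ball.1 hnear
    set Bad : Set (EuclideanSpace ℂ (Fin n)) := {w | w ∈ Metric.ball z r ∧ (t1 : EReal) ≤ u w}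
      with hBad
    have hBad0 : volume Bad = 0 := by
      refine measure_mono_null ?_ hae
      rintro w ⟨hw, hw2⟩ h
      obtain ⟨⟨hwU, _⟩, h2⟩ := hball w hw
      rw [h hwU, EReal.coe_le_coe_iff] at hw2
      linarith
    have hae2 := circle_null z (toMeasurable volume Bad) (measurableSet_toMeasurable _ _)
      (by rw [measure_toMeasurable, hBad0])
    obtain ⟨b, hbr, hb0⟩ : ∃ b : EuclideanSpace ℂ (Fin n), ‖b‖ < r ∧
        (volume.restrict (Set.Ioc (0:ℝ) (2 * Real.pi)))
          {θ : ℝ | z + circleMap 0 1 θ • b ∈ toMeasurable volume Bad} = 0 := by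
      by_contra hno
      push Not at hno
      have hpos : 0 < volume (Metric.ball (0 : EuclideanSpace ℂ (Fin n)) r) :=
        Metric.measure_ball_pos volume 0 hr
      rw [ae_iff] at hae2
      refine hpos.ne' (measure_mono_null ?_ hae2)
      intro b hb
      exact hno b (by simpa using hb)
    have hin : ∀ ζ : ℂ, ‖ζ‖ ≤ 1 → z + ζ • b ∈ Metric.ball z r := by
      intro ζ hζ
      rw [Metric.mem_ball, dist_eq_norm, add_sub_cancel_left, norm_smul]
      have := mul_le_of_le_one_left (norm_nonneg b) hζ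
      linarith
    -- the closed set of bad directions
    set F : Set ℂ := {ζ | ‖ζ‖ = 1 ∧ (t1 : EReal) ≤ u (z + ζ • b)} with hF
    have hFc : IsClosed F := by
      have h1 : F = {ζ : ℂ | ‖ζ‖ = 1} ∩
          ((fun ζ : ℂ => z + ζ • b) ⁻¹' {w | w ∈ U ∧ u w < (t1 : EReal)})ᶜ := by
        ext ζ
        constructor
        · rintro ⟨h1, h2⟩
          exact ⟨h1, fun h3 => absurd h3.2 (not_lt.2 h2)⟩
        · rintro ⟨h1, h2⟩
          refine ⟨h1, ?_⟩
          by_contra h3
          push Not at h3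
          exact h2 ⟨(hball _ (hin ζ (le_of_eq h1))).1.1, h3⟩
      rw [h1]
      refine IsClosed.inter (isClosed_eq continuous_norm continuous_const) ?_
      exact ((isOpen_lt_psh hU hu t1).preimage (by fun_prop)).isClosed_compl
    have hF0 : (volume.restrict (Set.Ioc (0:ℝ) (2 * Real.pi))) {θ : ℝ | circleMap 0 1 θ ∈ F} = 0 := by
      refine measure_mono_null ?_ hb0
      rintro θ ⟨h1, h2⟩
      exact subset_toMeasurable _ _ ⟨hin _ (le_of_eq h1), h2⟩
    set δs : ℕ → ℝ := fun k => 1 / ((k : ℝ) + 1) with hδs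
    have hδ0 : ∀ k, 0 < δs k := fun k => by simp only [hδs]; positivity
    have hδlim : Tendsto δs atTop (𝓝 0) := tendsto_one_div_add_atTop_nhds_zero_nat
    set χ : ℕ → ℂ → ℝ := fun k ζ => (thickenedIndicator (hδ0 k) F ζ : ℝ) with hχ
    have hχc : ∀ k, Continuous (χ k) := fun k =>
      NNReal.continuous_coe.comp (thickenedIndicator (hδ0 k) F).continuous
    have hχ0 : ∀ k ζ, 0 ≤ χ k ζ := fun k ζ => NNReal.coe_nonneg _
    have hχ1 : ∀ k ζ, χ k ζ ≤ 1 := fun k ζ => by
      simp only [hχ]
      exact_mod_cast thickenedIndicator_le_one (hδ0 k) F ζ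
    have hχF : ∀ k, ∀ ζ ∈ F, χ k ζ = 1 := fun k ζ hζ => by
      simp only [hχ]
      rw [thickenedIndicator_one (hδ0 k) F hζ]
      simp
    have hχlim : ∀ ζ, ζ ∉ F → Tendsto (fun k => χ k ζ) atTop (𝓝 0) := by
      intro ζ hζ
      have h1 := (tendsto_pi_nhds.1 (thickenedIndicator_tendsto_indicator_closure hδ0 hδlim F)) ζ
      rw [hFc.closure_eq, Set.indicator_of_notMem hζ] at h1
      exact (NNReal.tendsto_coe.2 h1)
    -- the circle averages of the cut-off functions tend to zero
    have havg : Tendsto (fun k => Real.circleAverage (χ k) 0 1) atTop (𝓝 0) := by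
      have h1 : Tendsto (fun k => ∫ θ in Set.Ioc (0:ℝ) (2 * Real.pi), χ k (circleMap 0 1 θ)) atTop
          (𝓝 (∫ _θ in Set.Ioc (0:ℝ) (2 * Real.pi), (0:ℝ))) := by
        refine tendsto_integral_of_dominated_convergence (fun _ => (1:ℝ)) ?_ ?_ ?_ ?_
        · intro k
          exact ((hχc k).comp (continuous_circleMap 0 1)).aestronglyMeasurable
        · exact integrable_const _
        · intro k
          filter_upwards with θ
          rw [Real.norm_of_nonneg (hχ0 k _)]
          exact hχ1 k _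
        · rw [ae_iff]
          refine measure_mono_null ?_ hF0
          intro θ hθ
          by_contra h
          exact hθ (hχlim _ h)
      rw [integral_zero] at h1
      have h2 : ∀ k, Real.circleAverage (χ k) 0 1 =
          (2 * Real.pi)⁻¹ * ∫ θ in Set.Ioc (0:ℝ) (2 * Real.pi), χ k (circleMap 0 1 θ) := by
        intro k
        rw [Real.circleAverage_def, intervalIntegral.integral_of_le (by positivity), smul_eq_mul]
      simp only [h2]
      simpa using h1.const_mul ((2 * Real.pi)⁻¹)
    have hkey : ∀ k, u z ≤ ((t1 + (C - t1) * Real.circleAverage (χ k) 0 1 : ℝ) : EReal) := by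
      intro k
      have h1 := hu.2.2 z b (fun ζ hζ => (hball _ (hin ζ hζ)).1.1)
        (fun ζ => t1 + (C - t1) * χ k ζ) (continuous_const.add (continuous_const.mul (hχc k))) (by
        intro ζ hζ
        by_cases hζF : ζ ∈ F
        · rw [hχF k ζ hζF]
          refine (hball _ (hin ζ hζ.le)).1.2.le.trans (le_of_eq ?_)
          congr 1
          ring
        · have h2 : u (z + ζ • b) < (t1 : EReal) := by
            by_contra h3
            push Not at h3
            exact hζF ⟨hζ, h3⟩
          refine h2.le.trans ?_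
          rw [EReal.coe_le_coe_iff]
          have : 0 ≤ (C - t1) * χ k ζ := mul_nonneg (by linarith) (hχ0 k ζ)
          linarith)
      have h2 : Real.circleAverage (fun ζ => t1 + (C - t1) * χ k ζ) 0 1 =
          t1 + (C - t1) * Real.circleAverage (χ k) 0 1 := by
        have e1 : CircleIntegrable (fun _ : ℂ => t1) 0 1 :=
          continuous_const.continuousOn.circleIntegrable'
        have e2 : CircleIntegrable (fun ζ : ℂ => (C - t1) * χ k ζ) 0 1 :=
          (continuous_const.mul (hχc k)).continuousOn.circleIntegrable'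
        rw [Real.circleAverage_fun_add e1 e2, Real.circleAverage_const]
        congr 1
        have := Real.circleAverage_smul (a := (C - t1)) (f := χ k) (c := 0) (R := 1)
        rw [smul_eq_mul] at this
        rw [← this]
        rfl
      rw [h2] at h1
      exact h1
    have hlim : Tendsto (fun k => t1 + (C - t1) * Real.circleAverage (χ k) 0 1) atTop
        (𝓝 (t1 + (C - t1) * 0)) := (havg.const_mul _).const_add _
    rw [mul_zero, add_zero] at hlim
    obtain ⟨k, hk⟩ := (hlim.eventually (gt_mem_nhds ht1')).exists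
    have h3 := (ht2'.trans_le (hkey k))
    rw [EReal.coe_lt_coe_iff] at h3
    linarith
  · by_contra hcon
    push Not at hcon
    obtain ⟨t, ht, ht'⟩ := EReal.lt_iff_exists_real_btwn.1 hcon
    rw [EReal.coe_lt_coe_iff] at ht'
    have hnear : ∀ᶠ w in 𝓝 z, w ∈ {w | w ∈ U ∧ u w < (t : EReal)} ∧ t < G w :=
      (show ∀ᶠ w in 𝓝 z, w ∈ {w | w ∈ U ∧ u w < (t : EReal)} from
        (isOpen_lt_psh hU hu t).mem_nhds ⟨hz, ht⟩).and (hGc.eventually (lt_mem_nhds ht'))
    obtain ⟨r, hr, hball⟩ := Metric.eventually_nhds_iff_ball.1 hnear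
    have hpos : 0 < volume (Metric.ball z r) := Metric.measure_ball_pos volume z hr
    refine hpos.ne' (measure_mono_null ?_ hae)
    intro w hw h
    obtain ⟨⟨hwU, h1⟩, h2⟩ := hball w hw
    have h3 := h hwU
    rw [h3, EReal.coe_lt_coe_iff] at h1
    linarith

end

end Pool.Agent.U882.GC
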