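import Mathlib
import Pool.Agent.U882.GC.Main
import Pool.Agent.U882.GC.Uniq

set_option autoImplicit false

open MeasureTheory Filter Topology Complex Set

namespace Pool.Agent.U882.GC

open Pool.Agent.Helper311.GB

noncomputable section

/-- the Green functions are uniformly small near the boundary -/
theorem bdry {n N : ℕ} {Ω : Set (EuclideanSpace ℂ (Fin n))} (hΩ : IsOpen Ω)
    (hb : Bornology.IsBounded Ω) (hh : Hyperconvex Ω) (h0 : (0 : EuclideanSpace ℂ (Fin n)) ∈ Ω)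
    (δ : ℝ) (hδ : 0 < δ) :
    ∃ ρ0 : ℝ, 0 < ρ0 ∧ ∃ L ⊆ Ω, IsCompact L ∧
      ∀ a : Fin N → EuclideanSpace ℂ (Fin n), (∀ j, ‖a j‖ < ρ0) → ∀ z ∈ Ω, z ∉ L →
        ((-δ : ℝ) : EReal) ≤ greenS Ω (Set.range a) z ∧ greenS Ω (Set.range a) z ≤ 0 := by
  obtain ⟨ψ, hψ, hψneg, hψex⟩ := hh
  obtain ⟨ρ1, hρ1, hρ1Ω⟩ := Metric.nhds_basis_closedBall.mem_iff.1 (hΩ.mem_nhds h0)
  obtain ⟨c, hc, hψc⟩ : ∃ c : ℝ, 0 < c ∧ ∀ z, ‖z‖ ≤ ρ1 → ψ z ≤ ((-c : ℝ) : EReal) := by
    obtain ⟨zm, hzm, hmax⟩ := (hψ.1.mono hρ1Ω).exists_isMaxOn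
      ⟨0, Metric.mem_closedBall_self hρ1.le⟩ (isCompact_closedBall _ _)
    obtain ⟨c, hc1, hc2⟩ := EReal.lt_iff_exists_real_btwn.1 (hψneg zm (hρ1Ω hzm))
    refine ⟨-c, ?_, fun z hz => ?_⟩
    · have : (c : EReal) < ((0 : ℝ) : EReal) := by simpa using hc2
      rw [EReal.coe_lt_coe_iff] at this
      linarith
    · rw [neg_neg]
      exact (hmax (show z ∈ Metric.closedBall 0 ρ1 by simpa using hz)).trans hc1.le
  obtain ⟨R0, hR0, hΩR0⟩ := hb.exists_pos_norm_le
  set R : ℝ := R0 + ρ1 + 1 with hR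
  have hR1 : 1 ≤ R := by linarith
  have hRpos : 0 < R := by linarith
  set A : ℝ := N * Real.log (8 * R / ρ1) + 1 + δ with hA
  have hlog8 : 0 ≤ Real.log (8 * R / ρ1) := by
    apply Real.log_nonneg
    rw [le_div_iff₀ hρ1]
    linarith
  have hApos : 0 < A := by positivity
  set M : ℝ := A / c with hM
  have hMpos : 0 < M := by positivity
  obtain ⟨Kc, hKc, hKcΩ, hKcex⟩ := hψex (-(δ / M)) (by
    have : 0 < δ / M := by positivity
    linarith)
  set L : Set (EuclideanSpace ℂ (Fin n)) := Kc ∪ Metric.closedBall 0 ρ1 with hL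
  have hLcpt : IsCompact L := hKc.union (isCompact_closedBall _ _)
  have hLΩ : L ⊆ Ω := union_subset hKcΩ hρ1Ω
  refine ⟨ρ1 / 4, by positivity, L, hLΩ, hLcpt, ?_⟩
  intro a ha z hz hzL
  have haΩ : ∀ j, a j ∈ Ω := fun j => hρ1Ω (by
    rw [mem_closedBall_zero_iff]
    have := (ha j).le
    linarith)
  have hzaR : ∀ z ∈ Ω, ∀ j, ‖z - a j‖ ≤ R := by
    intro z hz j
    have h1 := norm_sub_le z (a j)
    have h2 := hΩR0 z hz
    have h3 := (ha j).le
    linarith
  have hout : ∀ z ∈ Ω, z ∉ L → ((-δ : ℝ) : EReal) ≤ (M : EReal) * ψ z := by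
    intro z hz hzL
    have h1 : ¬ ψ z < ((-(δ / M) : ℝ) : EReal) := fun h => hzL (Or.inl (hKcex z hz h))
    push Not at h1
    have h2 : (M : EReal) * ((-(δ / M) : ℝ) : EReal) ≤ (M : EReal) * ψ z :=
      mul_le_mul_of_nonneg_left h1 (by exact_mod_cast hMpos.le)
    refine le_trans (le_of_eq ?_) h2
    rw [← EReal.coe_mul]
    congr 1
    field_simp
  refine ⟨?_, greenS_le _ fun u hu => (hu.2.1 z hz).le⟩
  obtain ⟨v, hv, _, hv2⟩ := comp_shift hΩ ψ hψ hψneg ρ1 δ M hρ1 hMpos hδ L Ω hLcpt.isClosed hΩ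
    hLΩ subset_rfl (fun z hz => Or.inr hz) hout (fun z => z) continuous_id
    (fun x b => by fun_prop) (fun z hz => hz) (Set.range a) (by
      rintro _ ⟨j, rfl⟩
      have := ha j
      linarith) (by
      rintro _ ⟨j, rfl⟩ z _
      have h5 := norm_nonneg (z - a j)
      constructor <;> linarith)
    (fun z => LN a z + ((-(N * Real.log R) - 1 : ℝ) : EReal)) (comp_LN hΩ a haΩ R hR1 hzaR) (by
      intro z hz1 hz2
      have h1 : (M : EReal) * ψ z ≤ (M : EReal) * ((-c : ℝ) : EReal) :=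
        mul_le_mul_of_nonneg_left (hψc z hz2.le) (by exact_mod_cast hMpos.le)
      refine h1.trans ?_
      have h2 : ((N * Real.log (ρ1 / 8) : ℝ) : EReal) ≤ LN a z := by
        apply LN_lower a z (ρ1 / 8) (by positivity)
        intro j
        have e2 := ha j
        have e3 := norm_sub_norm_le z (a j)
        linarith
      have h3 : (M : EReal) * ((-c : ℝ) : EReal) =
          ((N * Real.log (ρ1 / 8) : ℝ) : EReal) + ((-(N * Real.log R) - 1 : ℝ) : EReal) +
            ((-δ : ℝ) : EReal) := by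
        rw [← EReal.coe_mul, ← EReal.coe_add, ← EReal.coe_add]
        congr 1
        have e1 : M * -c = -A := by
          rw [hM]
          field_simp
        rw [e1, hA, show 8 * R / ρ1 = R / (ρ1 / 8) by field_simp,
          Real.log_div hRpos.ne' (by positivity)]
        ring
      rw [h3]
      exact add_le_add_left (add_le_add_left h2 _) _)
  have hρz : ρ1 ≤ ‖z‖ := by
    by_contra h
    push Not at h
    exact hzL (Or.inr (by simpa using h.le))
  exact (hout z hz hzL).trans ((hv2 z hz hρz).trans (le_greenS hv z))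

/-- the main theorem -/
theorem main_full {n N : ℕ} {Ω : Set (EuclideanSpace ℂ (Fin n))} (hΩ : IsOpen Ω)
    (hb : Bornology.IsBounded Ω) (hh : Hyperconvex Ω) (h0 : (0 : EuclideanSpace ℂ (Fin n)) ∈ Ω)
    {ι : Type} (l : Filter ι) [l.NeBot] (a : ι → Fin N → EuclideanSpace ℂ (Fin n))
    (ha : ∀ j, Tendsto (fun i => a i j) l (𝓝 0)) (g : EuclideanSpace ℂ (Fin n) → ℝ)
    (hg : LocallyIntegrableOn g Ω)
    (hconv : ∀ K ⊆ Ω, IsCompact K → Tendsto
      (fun i => ∫⁻ z in K, ‖(greenS Ω (Set.range (a i)) z).toReal - g z‖ₑ) l (𝓝 0)) :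
    ∃ G : EuclideanSpace ℂ (Fin n) → ℝ, ContinuousOn G (Ω \ {0}) ∧
      (∀ᵐ z ∂(volume.restrict (Ω \ {0})), g z = G z) ∧
      (∀ u : EuclideanSpace ℂ (Fin n) → EReal, PSH (Ω \ {0}) u →
        (∀ᵐ z ∂(volume.restrict (Ω \ {0})), u z = ((g z : ℝ) : EReal)) →
          ∀ z ∈ Ω \ {0}, u z = ((G z : ℝ) : EReal)) ∧
      ∀ r : ℝ, 0 < r →
        (∀ᶠ i in l, ∀ z ∈ Ω \ Metric.ball 0 r, greenS Ω (Set.range (a i)) z =
          (((greenS Ω (Set.range (a i)) z).toReal : ℝ) : EReal)) ∧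
        TendstoUniformlyOn (fun i z => (greenS Ω (Set.range (a i)) z).toReal) G l
          (Ω \ Metric.ball 0 r) := by
  obtain ⟨G, hGc, hGae, hGu⟩ := main_green hΩ hb hh h0 l a ha g hg hconv
  have hΩ0 : IsOpen (Ω \ {0}) := hΩ.sdiff isClosed_singleton
  have hsmall : ∀ ρ0 : ℝ, 0 < ρ0 → ∀ᶠ i in l, ∀ j, ‖a i j‖ < ρ0 := by
    intro ρ0 hρ0
    rw [eventually_all]
    intro j
    have := (ha j).eventually (Metric.ball_mem_nhds (0 : EuclideanSpace ℂ (Fin n)) hρ0)
    filter_upwards [this] with i hi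
    simpa using hi
  refine ⟨G, hGc, hGae, ?_, ?_⟩
  · intro u hu huae
    refine psh_eq_of_ae hΩ0 hu hGc ?_
    filter_upwards [huae, hGae] with z h1 h2
    rw [h1, h2]
  · intro r hr
    have hsub : ∀ L : Set (EuclideanSpace ℂ (Fin n)), L ⊆ Ω → L \ Metric.ball 0 r ⊆ Ω \ {0} := by
      intro L hL z hz
      refine ⟨hL hz.1, fun h => hz.2 ?_⟩
      rw [mem_singleton_iff.1 h]
      exact Metric.mem_ball_self hr
    constructor
    · obtain ⟨ρ0, hρ0, L, hLΩ, hLc, hL⟩ := bdry (N := N) hΩ hb hh h0 1 one_pos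
      obtain ⟨ρ0', hρ0', ⟨A, hA⟩, _⟩ := equi_real (N := N) hΩ hb hh h0 (L \ Metric.ball 0 r)
        (hLc.diff Metric.isOpen_ball) (hsub L hLΩ)
      filter_upwards [hsmall ρ0 hρ0, hsmall ρ0' hρ0'] with i h1 h2
      intro z hz
      by_cases hzL : z ∈ L
      · exact real_of_bdd (hA (a i) h2 z ⟨hzL, hz.2⟩).1 (hA (a i) h2 z ⟨hzL, hz.2⟩).2
      · exact real_of_bdd (hL (a i) h1 z hz.1 hzL).1 (hL (a i) h1 z hz.1 hzL).2
    · rw [Metric.tendstoUniformlyOn_iff]
      intro ε hε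
      obtain ⟨ρ0, hρ0, L, hLΩ, hLc, hL⟩ := bdry (N := N) hΩ hb hh h0 (ε / 4) (by positivity)
      have hK := Metric.tendstoUniformlyOn_iff.1 (hGu (L \ Metric.ball 0 r) (hsub L hLΩ)
        (hLc.diff Metric.isOpen_ball)) ε hε
      have hbound : ∀ i, (∀ j, ‖a i j‖ < ρ0) → ∀ z ∈ Ω, z ∉ L →
          |(greenS Ω (Set.range (a i)) z).toReal| ≤ ε / 4 := by
        intro i hi z hz hzL
        obtain ⟨h1, h2⟩ := hL (a i) hi z hz hzL
        have h3 := real_of_bdd h1 h2
        rw [h3] at h1 h2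
        have h1' : -(ε / 4) ≤ (greenS Ω (Set.range (a i)) z).toReal := by exact_mod_cast h1
        have h2' : (greenS Ω (Set.range (a i)) z).toReal ≤ 0 := by exact_mod_cast h2
        rw [abs_le]
        constructor <;> linarith
      filter_upwards [hK, hsmall ρ0 hρ0] with i h1 h2
      intro z hz
      by_cases hzL : z ∈ L
      · exact h1 z ⟨hzL, hz.2⟩
      · have hz0 : z ∈ Ω \ {0} := hsub Ω subset_rfl hz
        have h3 : Tendsto (fun i => (greenS Ω (Set.range (a i)) z).toReal) l (𝓝 (G z)) :=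
          (hGu {z} (by simpa using hz0) isCompact_singleton).tendsto_at (mem_singleton z)
        have h4 : |G z| ≤ ε / 4 := by
          refine le_of_tendsto h3.abs ?_
          filter_upwards [hsmall ρ0 hρ0] with i hi
          exact hbound i hi z hz.1 hzL
        have h5 := hbound i h2 z hz.1 hzL
        rw [Real.dist_eq]
        have h6 := abs_sub (G z) (greenS Ω (Set.range (a i)) z).toReal
        linarith

end

end Pool.Agent.U882.GC
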